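import Mathlib

/-! MP_4c1c99_co: the combinatorial core.  Points covered by `k` lines, slots `Fin c × Bool` on every line, a potential
that is minimised under swaps of two slots of one line. -/

open Finset

namespace Pool.X247.GPP

open scoped Classical

variable {α ι : Type} [Fintype α] [Fintype ι] {c : ℕ}

structure Sys (α ι : Type) [Fintype α] (c : ℕ) where
  on : ι → α → Prop
  Tr : α → α → α → Prop
  cover : ∀ p, ∃ i, on i p
  cap : ∀ i, (univ.filter (fun p => on i p)).card ≤ 2 * c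
  meet : ∀ i j p q, i ≠ j → on i p → on j p → on i q → on j q → p = q
  s12 : ∀ p q r, Tr p q r → Tr q p r
  s23 : ∀ p q r, Tr p q r → Tr p r q
  off : ∀ i p q r, Tr p q r → on i q → on i r → False
  uniq : ∀ i p q r r', Tr p q r → Tr p q r' → on i r → on i r' → r = r'

namespace Sys

variable (Y : Sys α ι c)

noncomputable def line (p : α) : ι := Classical.choose (Y.cover p)

theorem on_line (p : α) : Y.on (Y.line p) p := Classical.choose_spec (Y.cover p)

def Multi (p : α) : Prop := ∃ i j, i ≠ j ∧ Y.on i p ∧ Y.on j p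

structure St (f0 F : α → Fin c × Bool) : Prop where
  fix : ∀ p, Y.Multi p → F p = f0 p
  inj : ∀ i p q, Y.on i p → Y.on i q → F p = F q → p = q

noncomputable def bs (F : α → Fin c × Bool) (p : α) : Finset (α × α) :=
  univ.filter fun z => Y.Tr p z.1 z.2 ∧ (F z.1).1 = (F z.2).1

noncomputable def cs (F : α → Fin c × Bool) : Finset (α × α × α) :=
  univ.filter fun z => Y.Tr z.1 z.2.1 z.2.2 ∧ (F z.1).1 = (F z.2.1).1 ∧ (F z.2.1).1 = (F z.2.2).1

noncomputable def mv (F : α → Fin c × Bool) (i : ι) (x y : Fin c × Bool) (s : α) : Fin c × Bool :=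
  if Y.on i s then Equiv.swap x y (F s) else F s

theorem sum_card_le {A B Z : Type} (s : Finset A) (S : A → Finset B) (f : A → B → Z) (T : Finset Z)
    (hm : ∀ y ∈ s, ∀ b ∈ S y, f y b ∈ T)
    (hi : ∀ y ∈ s, ∀ b ∈ S y, ∀ y' ∈ s, ∀ b' ∈ S y', f y b = f y' b' → y = y' ∧ b = b') :
    ∑ y ∈ s, (S y).card ≤ T.card := by
  rw [← Finset.card_sigma]
  refine Finset.card_le_card_of_injOn (fun z => f z.1 z.2) ?_ ?_
  · rintro ⟨y, b⟩ h
    have h2 : y ∈ s ∧ b ∈ S y := by simpa using h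
    exact hm y h2.1 b h2.2
  · rintro ⟨y, b⟩ h ⟨y', b'⟩ h' e
    have h2 : y ∈ s ∧ b ∈ S y := by simpa using h
    have h3 : y' ∈ s ∧ b' ∈ S y' := by simpa using h'
    obtain ⟨e1, e2⟩ := hi y h2.1 b h2.2 y' h3.1 b' h3.2 e
    subst e1; subst e2; rfl

theorem card_Tr (p q : α) : (univ.filter (fun r => Y.Tr p q r)).card ≤ Fintype.card ι := by
  rw [← Finset.card_univ]
  refine Finset.card_le_card_of_injOn (fun r => Y.line r) (fun _ _ => by simp) ?_
  intro r h r' h' e
  have h2 : Y.Tr p q r := by simpa using h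
  have h3 : Y.Tr p q r' := by simpa using h'
  have e' : Y.line r = Y.line r' := e
  exact Y.uniq (Y.line r) p q r r' h2 h3 (Y.on_line r) (e' ▸ Y.on_line r')

variable {Y} {f0 F : α → Fin c × Bool}

theorem card_col (h : Y.St f0 F) (col : Fin c) :
    (univ.filter (fun s => (F s).1 = col)).card ≤ 2 * Fintype.card ι := by
  have e : 2 * Fintype.card ι = (univ : Finset (ι × Bool)).card := by
    rw [Finset.card_univ, Fintype.card_prod, Fintype.card_bool, mul_comm]
  rw [e]
  refine Finset.card_le_card_of_injOn (fun s => (Y.line s, (F s).2)) (fun _ _ => by simp) ?_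
  intro r h1 r' h' e
  have h2 : (F r).1 = col := by simpa using h1
  have h3 : (F r').1 = col := by simpa using h'
  have e' : (Y.line r, (F r).2) = (Y.line r', (F r').2) := e
  have e1 := congrArg Prod.fst e'
  have e2 := congrArg Prod.snd e'
  simp only at e1 e2
  exact h.inj (Y.line r) r r' (Y.on_line r) (e1 ▸ Y.on_line r') (Prod.ext (h2.trans h3.symm) e2)

theorem card_all (h : Y.St f0 F) : Fintype.card α ≤ 2 * c * Fintype.card ι := by
  have e : 2 * c * Fintype.card ι = (univ : Finset (ι × (Fin c × Bool))).card := by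
    rw [Finset.card_univ, Fintype.card_prod, Fintype.card_prod, Fintype.card_bool, Fintype.card_fin]; ring
  rw [e, ← Finset.card_univ]
  refine Finset.card_le_card_of_injOn (fun s => (Y.line s, F s)) (fun _ _ => by simp) ?_
  intro r h1 r' h' e
  have e' : (Y.line r, F r) = (Y.line r', F r') := e
  have e1 := congrArg Prod.fst e'
  have e2 := congrArg Prod.snd e'
  simp only at e1 e2
  exact h.inj (Y.line r) r r' (Y.on_line r) (e1 ▸ Y.on_line r') e2

theorem mv_of_on {i : ι} {s : α} (x y : Fin c × Bool) (hs : Y.on i s) : Y.mv F i x y s = Equiv.swap x y (F s) := by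
  unfold mv; rw [if_pos hs]

theorem mv_of_off {i : ι} {s : α} (x y : Fin c × Bool) (hs : ¬ Y.on i s) : Y.mv F i x y s = F s := by
  unfold mv; rw [if_neg hs]

theorem St.move (h : Y.St f0 F) {i : ι} {q : α} (hq : Y.on i q) (hm : ¬ Y.Multi q) {y : Fin c × Bool}
    (hy : ∀ s, Y.Multi s → Y.on i s → f0 s ≠ y) : Y.St f0 (Y.mv F i (F q) y) := by
  have key : ∀ s, Y.Multi s → Y.mv F i (F q) y s = F s := by
    intro s hs
    by_cases ho : Y.on i s
    · rw [mv_of_on _ _ ho]
      refine Equiv.swap_apply_of_ne_of_ne ?_ ?_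
      · intro e
        exact hm (h.inj i s q ho hq e ▸ hs)
      · rw [h.fix s hs]; exact hy s hs ho
    · exact mv_of_off _ _ ho
  refine ⟨fun p hp => (key p hp).trans (h.fix p hp), ?_⟩
  intro j p r hp hr e
  by_cases hj : j = i
  · subst hj
    rw [mv_of_on _ _ hp, mv_of_on _ _ hr] at e
    exact h.inj j p r hp hr ((Equiv.swap _ _).injective e)
  · have k : ∀ s, Y.on j s → Y.mv F i (F q) y s = F s := by
      intro s hs
      by_cases ho : Y.on i s
      · exact key s ⟨j, i, hj, hs, ho⟩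
      · exact mv_of_off _ _ ho
    rw [k p hp, k r hr] at e
    exact h.inj j p r hp hr e

/-- the colour after the move of a point on the line -/
theorem mv_cases (h : Y.St f0 F) {i : ι} {q a : α} (hq : Y.on i q) (ha : Y.on i a) (y : Fin c × Bool) :
    (a = q ∧ Y.mv F i (F q) y a = y) ∨ (a ≠ q ∧ F a = y ∧ Y.mv F i (F q) y a = F q) ∨
      (a ≠ q ∧ Y.mv F i (F q) y a = F a) := by
  rw [mv_of_on _ _ ha]
  by_cases e : a = q
  · left; subst e; exact ⟨rfl, Equiv.swap_apply_left _ _⟩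
  · right
    by_cases e2 : F a = y
    · left; refine ⟨e, e2, ?_⟩; rw [e2]; exact Equiv.swap_apply_right _ _
    · right; refine ⟨e, Equiv.swap_apply_of_ne_of_ne ?_ e2⟩
      intro e3; exact e (h.inj i a q ha hq e3)

noncomputable def V1 (Y : Sys α ι c) (F : α → Fin c × Bool) (q p : α) (y : Fin c × Bool) : Finset α :=
  univ.filter fun b => Y.Tr p q b ∧ (F b).1 = y.1

noncomputable def V2 (Y : Sys α ι c) (F : α → Fin c × Bool) (i : ι) (q p : α) (y : Fin c × Bool) : Finset (α × α) :=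
  univ.filter fun z => Y.on i z.1 ∧ F z.1 = y ∧ Y.Tr p z.1 z.2 ∧ (F z.2).1 = (F q).1

noncomputable def H1 (Y : Sys α ι c) (F : α → Fin c × Bool) (q : α) (y : Fin c × Bool) : Finset (α × α) :=
  univ.filter fun z => Y.Tr q z.1 z.2 ∧ (F z.1).1 = y.1 ∧ (F z.2).1 = y.1

noncomputable def H2 (Y : Sys α ι c) (F : α → Fin c × Bool) (i : ι) (q : α) (y : Fin c × Bool) : Finset (α × α × α) :=
  univ.filter fun z => Y.on i z.1 ∧ F z.1 = y ∧ Y.Tr z.1 z.2.1 z.2.2 ∧ (F z.2.1).1 = (F q).1 ∧ (F z.2.2).1 = (F q).1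

noncomputable def V (Y : Sys α ι c) (F : α → Fin c × Bool) (i : ι) (q p : α) (y : Fin c × Bool) : ℕ :=
  2 * (V1 Y F q p y).card + 2 * (V2 Y F i q p y).card

noncomputable def H (Y : Sys α ι c) (F : α → Fin c × Bool) (i : ι) (q : α) (y : Fin c × Bool) : ℕ :=
  3 * (H1 Y F q y).card + 3 * (H2 Y F i q y).card

theorem bs_move (h : Y.St f0 F) {i : ι} {q : α} (hq : Y.on i q) (y : Fin c × Bool) (p : α) :
    (Y.bs (Y.mv F i (F q) y) p).card ≤ ((Y.bs F p).filter (fun z => z.1 ≠ q)).card + V Y F i q p y := by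
  have hsub : Y.bs (Y.mv F i (F q) y) p ⊆ (Y.bs F p).filter (fun z => z.1 ≠ q) ∪
      ((V1 Y F q p y).image (fun b => (q, b)) ∪ (V1 Y F q p y).image (fun b => (b, q)) ∪
       (V2 Y F i q p y ∪ (V2 Y F i q p y).image (fun z => (z.2, z.1)))) := by
    rintro ⟨a, b⟩ hab
    have hab' : Y.Tr p a b ∧ (Y.mv F i (F q) y a).1 = (Y.mv F i (F q) y b).1 := by simpa [bs] using hab
    obtain ⟨ht, he⟩ := hab'
    simp only [mem_union, mem_filter, mem_image, bs, V1, V2, mem_univ, true_and]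
    by_cases ha : Y.on i a
    · have hb : ¬ Y.on i b := fun hb => Y.off i p a b ht ha hb
      rw [mv_of_off _ _ hb] at he
      rcases mv_cases h hq ha y with ⟨e1, e2⟩ | ⟨_, e2, e3⟩ | ⟨e1, e2⟩
      · right; left; left
        rw [e2] at he
        refine ⟨b, ⟨e1 ▸ ht, he.symm⟩, by rw [e1]⟩
      · right; right; left
        rw [e3] at he
        exact ⟨ha, e2, ht, he.symm⟩
      · left
        rw [e2] at he
        exact ⟨⟨ht, he⟩, e1⟩
    · rw [mv_of_off _ _ ha] at he
      have haq : a ≠ q := fun e => ha (e ▸ hq)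
      by_cases hb : Y.on i b
      · have ht' := Y.s23 p a b ht
        rcases mv_cases h hq hb y with ⟨e1, e2⟩ | ⟨_, e2, e3⟩ | ⟨e1, e2⟩
        · right; left; right
          rw [e2] at he
          exact ⟨a, ⟨e1 ▸ ht', he⟩, by rw [e1]⟩
        · right; right; right
          rw [e3] at he
          exact ⟨(b, a), ⟨hb, e2, ht', he⟩, rfl⟩
        · left
          rw [e2] at he
          exact ⟨⟨ht, he⟩, haq⟩
      · rw [mv_of_off _ _ hb] at he
        left
        exact ⟨⟨ht, he⟩, haq⟩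
  have h1 := card_le_card hsub
  have h2 := card_union_le ((Y.bs F p).filter (fun z => z.1 ≠ q))
      ((V1 Y F q p y).image (fun b => (q, b)) ∪ (V1 Y F q p y).image (fun b => (b, q)) ∪
       (V2 Y F i q p y ∪ (V2 Y F i q p y).image (fun z => (z.2, z.1))))
  have h3 := card_union_le ((V1 Y F q p y).image (fun b => (q, b)) ∪ (V1 Y F q p y).image (fun b => (b, q)))
       (V2 Y F i q p y ∪ (V2 Y F i q p y).image (fun z => (z.2, z.1)))
  have h4 := card_union_le ((V1 Y F q p y).image (fun b => (q, b))) ((V1 Y F q p y).image (fun b => (b, q)))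
  have h5 := card_union_le (V2 Y F i q p y) ((V2 Y F i q p y).image (fun z => (z.2, z.1)))
  have h6 : ((V1 Y F q p y).image (fun b => (q, b))).card ≤ (V1 Y F q p y).card := card_image_le
  have h7 : ((V1 Y F q p y).image (fun b => (b, q))).card ≤ (V1 Y F q p y).card := card_image_le
  have h8 : ((V2 Y F i q p y).image (fun z => (z.2, z.1))).card ≤ (V2 Y F i q p y).card := card_image_le
  unfold V
  omega

theorem cs_move (h : Y.St f0 F) {i : ι} {q : α} (hq : Y.on i q) (y : Fin c × Bool) :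
    (Y.cs (Y.mv F i (F q) y)).card ≤ ((Y.cs F).filter (fun z => z.1 ≠ q)).card + H Y F i q y := by
  have hsub : Y.cs (Y.mv F i (F q) y) ⊆ (Y.cs F).filter (fun z => z.1 ≠ q) ∪
      (((H1 Y F q y).image (fun z => (q, z.1, z.2)) ∪ (H1 Y F q y).image (fun z => (z.1, q, z.2)) ∪
        (H1 Y F q y).image (fun z => (z.1, z.2, q))) ∪
       (H2 Y F i q y ∪ (H2 Y F i q y).image (fun z => (z.2.1, z.1, z.2.2)) ∪
        (H2 Y F i q y).image (fun z => (z.2.1, z.2.2, z.1)))) := by
    rintro ⟨a, b, d⟩ hab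
    have hab' : Y.Tr a b d ∧ (Y.mv F i (F q) y a).1 = (Y.mv F i (F q) y b).1 ∧
      (Y.mv F i (F q) y b).1 = (Y.mv F i (F q) y d).1 := by simpa [cs] using hab
    obtain ⟨ht, he, hf⟩ := hab'
    simp only [mem_union, mem_filter, mem_image, cs, H1, H2, mem_univ, true_and]
    by_cases ha : Y.on i a
    · have hb : ¬ Y.on i b := fun hb => Y.off i d a b (Y.s12 _ _ _ (Y.s23 _ _ _ ht)) ha hb
      have hd : ¬ Y.on i d := fun hd => Y.off i b a d (Y.s12 _ _ _ ht) ha hd
      rw [mv_of_off _ _ hb] at he hf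
      rw [mv_of_off _ _ hd] at hf
      rcases mv_cases h hq ha y with ⟨e1, e2⟩ | ⟨_, e2, e3⟩ | ⟨e1, e2⟩
      · right; left; left; left
        rw [e2] at he
        exact ⟨(b, d), ⟨e1 ▸ ht, he.symm, hf.symm.trans he.symm⟩, by rw [e1]⟩
      · right; right; left; left
        rw [e3] at he
        exact ⟨ha, e2, ht, he.symm, hf.symm.trans he.symm⟩
      · left
        rw [e2] at he
        exact ⟨⟨ht, he, hf⟩, e1⟩
    · rw [mv_of_off _ _ ha] at he
      have haq : a ≠ q := fun e => ha (e ▸ hq)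
      by_cases hb : Y.on i b
      · have hd : ¬ Y.on i d := fun hd => Y.off i a b d ht hb hd
        rw [mv_of_off _ _ hd] at hf
        have ht' := Y.s12 a b d ht
        rcases mv_cases h hq hb y with ⟨e1, e2⟩ | ⟨_, e2, e3⟩ | ⟨e1, e2⟩
        · right; left; left; right
          rw [e2] at he hf
          exact ⟨(a, d), ⟨e1 ▸ ht', he, hf.symm⟩, by rw [e1]⟩
        · right; right; left; right
          rw [e3] at he hf
          exact ⟨(b, a, d), ⟨hb, e2, ht', he, hf.symm⟩, rfl⟩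
        · left
          rw [e2] at he hf
          exact ⟨⟨ht, he, hf⟩, haq⟩
      · rw [mv_of_off _ _ hb] at he hf
        by_cases hd : Y.on i d
        · have ht' := Y.s12 _ _ _ (Y.s23 _ _ _ ht)
          rcases mv_cases h hq hd y with ⟨e1, e2⟩ | ⟨_, e2, e3⟩ | ⟨e1, e2⟩
          · right; left; right
            rw [e2] at hf
            exact ⟨(a, b), ⟨e1 ▸ ht', he.trans hf, hf⟩, by rw [e1]⟩
          · right; right; right
            rw [e3] at hf
            exact ⟨(d, a, b), ⟨hd, e2, ht', he.trans hf, hf⟩, rfl⟩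
          · left
            rw [e2] at hf
            exact ⟨⟨ht, he, hf⟩, haq⟩
        · rw [mv_of_off _ _ hd] at hf
          left
          exact ⟨⟨ht, he, hf⟩, haq⟩
  have h1 := card_le_card hsub
  refine h1.trans ((card_union_le _ _).trans (Nat.add_le_add_left ?_ _))
  refine (card_union_le _ _).trans ?_
  have a1 := card_union_le ((H1 Y F q y).image (fun z => (q, z.1, z.2)) ∪ (H1 Y F q y).image (fun z => (z.1, q, z.2)))
    ((H1 Y F q y).image (fun z => (z.1, z.2, q)))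
  have a2 := card_union_le ((H1 Y F q y).image (fun z => (q, z.1, z.2))) ((H1 Y F q y).image (fun z => (z.1, q, z.2)))
  have a3 := card_union_le (H2 Y F i q y ∪ (H2 Y F i q y).image (fun z => (z.2.1, z.1, z.2.2)))
    ((H2 Y F i q y).image (fun z => (z.2.1, z.2.2, z.1)))
  have a4 := card_union_le (H2 Y F i q y) ((H2 Y F i q y).image (fun z => (z.2.1, z.1, z.2.2)))
  have b1 : ((H1 Y F q y).image (fun z => (q, z.1, z.2))).card ≤ (H1 Y F q y).card := card_image_le
  have b2 : ((H1 Y F q y).image (fun z => (z.1, q, z.2))).card ≤ (H1 Y F q y).card := card_image_le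
  have b3 : ((H1 Y F q y).image (fun z => (z.1, z.2, q))).card ≤ (H1 Y F q y).card := card_image_le
  have b4 : ((H2 Y F i q y).image (fun z => (z.2.1, z.1, z.2.2))).card ≤ (H2 Y F i q y).card := card_image_le
  have b5 : ((H2 Y F i q y).image (fun z => (z.2.1, z.2.2, z.1))).card ≤ (H2 Y F i q y).card := card_image_le
  unfold H
  omega

/-! ### sums over the slots -/

theorem V1_le (q p : α) (y : Fin c × Bool) : (V1 Y F q p y).card ≤ Fintype.card ι := by
  refine le_trans (card_le_card ?_) (Y.card_Tr p q)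
  intro b hb
  have h2 : Y.Tr p q b ∧ (F b).1 = y.1 := by simpa [V1] using hb
  simpa using h2.1

theorem V2_le (h : Y.St f0 F) (i : ι) (q p : α) (y : Fin c × Bool) : (V2 Y F i q p y).card ≤ Fintype.card ι := by
  rw [← Finset.card_univ (α := ι)]
  refine Finset.card_le_card_of_injOn (fun z => Y.line z.2) (fun _ _ => by simp) ?_
  rintro ⟨a, b⟩ h1 ⟨a', b'⟩ h1' e
  have h2 : Y.on i a ∧ F a = y ∧ Y.Tr p a b ∧ (F b).1 = (F q).1 := by simpa [V2] using h1
  have h3 : Y.on i a' ∧ F a' = y ∧ Y.Tr p a' b' ∧ (F b').1 = (F q).1 := by simpa [V2] using h1'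
  have e' : Y.line b = Y.line b' := e
  have ea : a = a' := h.inj i a a' h2.1 h3.1 (h2.2.1.trans h3.2.1.symm)
  subst ea
  have eb := Y.uniq (Y.line b) p a b b' h2.2.2.1 h3.2.2.1 (Y.on_line b) (e' ▸ Y.on_line b')
  rw [eb]

theorem V_le (h : Y.St f0 F) (i : ι) (q p : α) (y : Fin c × Bool) : V Y F i q p y ≤ 4 * Fintype.card ι := by
  have h1 := V1_le (Y := Y) (F := F) q p y
  have h2 := V2_le h i q p y
  unfold V
  omega

theorem mem_V1 {q p : α} {y : Fin c × Bool} {b : α} : b ∈ V1 Y F q p y ↔ Y.Tr p q b ∧ (F b).1 = y.1 := by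
  simp [V1]

theorem mem_V2 {i : ι} {q p : α} {y : Fin c × Bool} {z : α × α} : z ∈ V2 Y F i q p y ↔
    Y.on i z.1 ∧ F z.1 = y ∧ Y.Tr p z.1 z.2 ∧ (F z.2).1 = (F q).1 := by
  simp [V2]

theorem mem_H1 {q : α} {y : Fin c × Bool} {z : α × α} : z ∈ H1 Y F q y ↔
    Y.Tr q z.1 z.2 ∧ (F z.1).1 = y.1 ∧ (F z.2).1 = y.1 := by
  simp [H1]

theorem mem_H2 {i : ι} {q : α} {y : Fin c × Bool} {z : α × α × α} : z ∈ H2 Y F i q y ↔
    Y.on i z.1 ∧ F z.1 = y ∧ Y.Tr z.1 z.2.1 z.2.2 ∧ (F z.2.1).1 = (F q).1 ∧ (F z.2.2).1 = (F q).1 := by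
  simp [H2]

theorem mem_bs {p : α} {z : α × α} : z ∈ Y.bs F p ↔ Y.Tr p z.1 z.2 ∧ (F z.1).1 = (F z.2).1 := by
  simp [bs]

theorem mem_cs {z : α × α × α} : z ∈ Y.cs F ↔
    Y.Tr z.1 z.2.1 z.2.2 ∧ (F z.1).1 = (F z.2.1).1 ∧ (F z.2.1).1 = (F z.2.2).1 := by
  simp [cs]

theorem sum_V1 (q p : α) (s : Finset (Fin c × Bool)) : ∑ y ∈ s, (V1 Y F q p y).card ≤ 2 * Fintype.card ι := by
  have h := sum_card_le s (fun y => V1 Y F q p y) (fun y b => (b, y.2))
    ((univ.filter (fun r => Y.Tr p q r)) ×ˢ (univ : Finset Bool))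
    (fun y _ b hb => by simpa using (mem_V1.1 hb).1)
    (fun y _ b hb y' _ b' hb' e => by
      obtain ⟨e1, e2⟩ := Prod.mk.inj e
      have hb := mem_V1.1 hb
      have hb' := mem_V1.1 hb'
      refine ⟨Prod.ext ?_ e2, e1⟩
      rw [← hb.2, ← hb'.2, e1])
  refine h.trans ?_
  rw [card_product, card_univ, Fintype.card_bool]
  have := Y.card_Tr p q
  omega

theorem sum_V2 (h : Y.St f0 F) (i : ι) (q p : α) (s : Finset (Fin c × Bool)) :
    ∑ y ∈ s, (V2 Y F i q p y).card ≤ 2 * Fintype.card ι := by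
  have h' := sum_card_le s (fun y => V2 Y F i q p y)
    (fun _ z => z.2) (univ.filter (fun s => (F s).1 = (F q).1))
    (fun y _ z hz => by simpa using (mem_V2.1 hz).2.2.2)
    (fun y _ z hz y' _ z' hz' e => by
      have hz := mem_V2.1 hz
      have hz' := mem_V2.1 hz'
      have e1 : z.2 = z'.2 := e
      have t1 : Y.Tr p z.2 z.1 := Y.s23 _ _ _ hz.2.2.1
      have t2 : Y.Tr p z.2 z'.1 := e1 ▸ Y.s23 _ _ _ hz'.2.2.1
      have e2 := Y.uniq i p z.2 z.1 z'.1 t1 t2 hz.1 hz'.1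
      refine ⟨?_, Prod.ext e2 e1⟩
      rw [← hz.2.1, ← hz'.2.1, e2])
  exact h'.trans (card_col h _)

theorem sum_V (h : Y.St f0 F) (i : ι) (q p : α) (s : Finset (Fin c × Bool)) :
    ∑ y ∈ s, V Y F i q p y ≤ 8 * Fintype.card ι := by
  have h1 := sum_V1 (Y := Y) (F := F) q p s
  have h2 := sum_V2 h i q p s
  have : ∑ y ∈ s, V Y F i q p y = 2 * ∑ y ∈ s, (V1 Y F q p y).card + 2 * ∑ y ∈ s, (V2 Y F i q p y).card := by
    unfold V
    rw [Finset.sum_add_distrib, Finset.mul_sum, Finset.mul_sum]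
  omega

theorem sum_H (h : Y.St f0 F) (i : ι) (q : α) (s : Finset (Fin c × Bool)) :
    ∑ y ∈ s, H Y F i q y ≤ 6 * (Y.bs F q).card + 12 * (Fintype.card ι) ^ 2 := by
  have h1 : ∑ y ∈ s, (H1 Y F q y).card ≤ 2 * (Y.bs F q).card := by
    have h' := sum_card_le s (fun y => H1 Y F q y) (fun y z => (z, y.2))
      ((Y.bs F q) ×ˢ (univ : Finset Bool))
      (fun y _ z hz => by
        have hz := mem_H1.1 hz
        simpa [mem_bs] using ⟨hz.1, hz.2.1.trans hz.2.2.symm⟩)
      (fun y _ z hz y' _ z' hz' e => by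
        obtain ⟨e1, e2⟩ := Prod.mk.inj e
        have hz := mem_H1.1 hz
        have hz' := mem_H1.1 hz'
        refine ⟨Prod.ext ?_ e2, e1⟩
        rw [← hz.2.1, ← hz'.2.1, e1])
    refine h'.trans ?_
    rw [card_product, card_univ, Fintype.card_bool]
    omega
  have h2 : ∑ y ∈ s, (H2 Y F i q y).card ≤ 4 * (Fintype.card ι) ^ 2 := by
    have h' := sum_card_le s (fun y => H2 Y F i q y)
      (fun _ z => z.2) ((univ.filter (fun s => (F s).1 = (F q).1)) ×ˢ (univ.filter (fun s => (F s).1 = (F q).1)))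
      (fun y _ z hz => by
        have hz := mem_H2.1 hz
        simpa using ⟨hz.2.2.2.1, hz.2.2.2.2⟩)
      (fun y _ z hz y' _ z' hz' e => by
        have hz := mem_H2.1 hz
        have hz' := mem_H2.1 hz'
        have e1 : z.2 = z'.2 := e
        have t1 : Y.Tr z.2.1 z.2.2 z.1 := Y.s23 _ _ _ (Y.s12 _ _ _ hz.2.2.1)
        have t2 : Y.Tr z.2.1 z.2.2 z'.1 := e1 ▸ Y.s23 _ _ _ (Y.s12 _ _ _ hz'.2.2.1)
        have e2 := Y.uniq i z.2.1 z.2.2 z.1 z'.1 t1 t2 hz.1 hz'.1
        refine ⟨?_, Prod.ext e2 e1⟩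
        rw [← hz.2.1, ← hz'.2.1, e2])
    refine h'.trans ?_
    rw [card_product]
    have := card_col h (F q).1
    nlinarith
  have h3 : ∑ y ∈ s, H Y F i q y = 3 * ∑ y ∈ s, (H1 Y F q y).card + 3 * ∑ y ∈ s, (H2 Y F i q y).card := by
    unfold H
    rw [Finset.sum_add_distrib, Finset.mul_sum, Finset.mul_sum]
  omega

/-- the number of monochromatic pairs counted at all points -/
theorem sum_bs (h : Y.St f0 F) : ∑ p, (Y.bs F p).card ≤ 4 * c * (Fintype.card ι) ^ 3 := by
  have h1 : ∑ p ∈ (univ : Finset α), (Y.bs F p).card ≤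
      ((univ : Finset (ι × (Fin c × Bool))) ×ˢ ((univ : Finset (ι × Bool)) ×ˢ (univ : Finset ι))).card := by
    refine sum_card_le univ (fun p => Y.bs F p)
      (fun p z => ((Y.line z.1, F z.1), ((Y.line z.2, (F z.2).2), Y.line p))) _ (fun _ _ _ _ => by
        simp only [mem_product, mem_univ, and_self]) ?_
    intro y _ z hz y' _ z' hz' e
    have hz := mem_bs.1 hz
    have hz' := mem_bs.1 hz'
    simp only [Prod.mk.injEq] at e
    obtain ⟨⟨e1, e2⟩, ⟨e3, e4⟩, e5⟩ := e
    have a1 : z.1 = z'.1 := h.inj (Y.line z.1) _ _ (Y.on_line _) (e1 ▸ Y.on_line _) e2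
    have a2 : z.2 = z'.2 := h.inj (Y.line z.2) _ _ (Y.on_line _) (e3 ▸ Y.on_line _)
      (Prod.ext (by rw [← hz.2, ← hz'.2, a1]) e4)
    have a3 : z = z' := Prod.ext a1 a2
    refine ⟨?_, a3⟩
    have t1 : Y.Tr z.1 z.2 y := Y.s23 _ _ _ (Y.s12 _ _ _ hz.1)
    have t2 : Y.Tr z.1 z.2 y' := a3 ▸ Y.s23 _ _ _ (Y.s12 _ _ _ hz'.1)
    exact Y.uniq (Y.line y) z.1 z.2 y y' t1 t2 (Y.on_line _) (e5 ▸ Y.on_line _)
  refine h1.trans (le_of_eq ?_)
  simp only [card_product, card_univ, Fintype.card_prod, Fintype.card_bool, Fintype.card_fin]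
  ring

/-- the total increase of the sum of squares -/
theorem sum_E (h : Y.St f0 F) (i : ι) (q : α) (s : Finset (Fin c × Bool)) :
    ∑ y ∈ s, ∑ p, V Y F i q p y * (2 * (Y.bs F p).card + 4 * Fintype.card ι) ≤ 128 * c * (Fintype.card ι) ^ 4 := by
  rw [Finset.sum_comm]
  have h1 : ∀ p, ∑ y ∈ s, V Y F i q p y * (2 * (Y.bs F p).card + 4 * Fintype.card ι) ≤
      8 * Fintype.card ι * (2 * (Y.bs F p).card + 4 * Fintype.card ι) := by
    intro p
    rw [← Finset.sum_mul]
    exact Nat.mul_le_mul_right _ (sum_V h i q p s)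
  refine (Finset.sum_le_sum (fun p _ => h1 p)).trans ?_
  rw [← Finset.mul_sum, Finset.sum_add_distrib, ← Finset.mul_sum, Finset.sum_const, card_univ, smul_eq_mul]
  have h2 := sum_bs h
  have h3 := card_all h
  set k := Fintype.card ι with hk
  rcases Nat.eq_zero_or_pos k with h0 | h0
  · simp [h0]
  have h4 : 2 * ∑ p, (Y.bs F p).card + Fintype.card α * (4 * k) ≤ 8 * c * k ^ 3 + 8 * c * k * k := by nlinarith
  have h5 : 8 * c * k ^ 3 + 8 * c * k * k ≤ 16 * c * k ^ 3 := by
    have : c * k * k ≤ c * k ^ 3 := by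
      have : c * k ^ 3 = (c * k * k) * k := by ring
      rw [this]; exact Nat.le_mul_of_pos_right _ h0
    nlinarith
  calc 8 * k * (2 * ∑ p, (Y.bs F p).card + Fintype.card α * (4 * k)) ≤ 8 * k * (16 * c * k ^ 3) :=
        Nat.mul_le_mul_left _ (h4.trans h5)
    _ = 128 * c * k ^ 4 := by ring

theorem card_multi_on (Y : Sys α ι c) (i : ι) :
    (univ.filter (fun s => Y.Multi s ∧ Y.on i s)).card ≤ Fintype.card ι := by
  have hex : ∀ s, ∃ j, Y.Multi s ∧ Y.on i s → (i ≠ j ∧ Y.on j s) := by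
    intro s
    by_cases h : Y.Multi s ∧ Y.on i s
    · obtain ⟨⟨a, b, hab, ha, hb⟩, hi⟩ := h
      by_cases e : i = a
      · exact ⟨b, fun _ => ⟨e ▸ hab, hb⟩⟩
      · exact ⟨a, fun _ => ⟨e, ha⟩⟩
    · exact ⟨i, fun h' => absurd h' h⟩
  choose g hg using hex
  rw [← Finset.card_univ]
  refine Finset.card_le_card_of_injOn g (fun _ _ => by simp) ?_
  intro s hs s' hs' e
  have h2 : Y.Multi s ∧ Y.on i s := by simpa using hs
  have h3 : Y.Multi s' ∧ Y.on i s' := by simpa using hs'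
  obtain ⟨a1, a2⟩ := hg s h2
  obtain ⟨a3, a4⟩ := hg s' h3
  exact Y.meet i (g s) s s' a1 h2.2 a2 h3.2 (e ▸ a4)

noncomputable def slots (Y : Sys α ι c) (f0 : α → Fin c × Bool) (i : ι) : Finset (Fin c × Bool) :=
  univ.filter fun y => ∀ s, Y.Multi s → Y.on i s → f0 s ≠ y

theorem card_slots (Y : Sys α ι c) (f0 : α → Fin c × Bool) (i : ι) (hk : Fintype.card ι ≤ c) :
    c ≤ (slots Y f0 i).card := by
  have h1 : (univ : Finset (Fin c × Bool)) ⊆ slots Y f0 i ∪ (univ.filter (fun s => Y.Multi s ∧ Y.on i s)).image f0 := by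
    intro y _
    simp only [mem_union, slots, mem_filter, mem_univ, true_and, mem_image]
    by_cases h : ∀ s, Y.Multi s → Y.on i s → f0 s ≠ y
    · exact Or.inl h
    · push Not at h
      obtain ⟨s, a, b, e⟩ := h
      exact Or.inr ⟨s, ⟨a, b⟩, e⟩
  have h2 := (card_le_card h1).trans (card_union_le _ _)
  have h3 : ((univ.filter (fun s => Y.Multi s ∧ Y.on i s)).image f0).card ≤ _ := card_image_le
  have h4 := Y.card_multi_on i
  rw [Finset.card_univ, Fintype.card_prod, Fintype.card_bool, Fintype.card_fin] at h2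
  omega

theorem exists_St (Y : Sys α ι c) (f0 : α → Fin c × Bool)
    (hf : ∀ p q, Y.Multi p → Y.Multi q → f0 p = f0 q → p = q) : ∃ F, Y.St f0 F := by
  have hex : ∀ i : ι, ∃ g : {p // Y.on i p} → Fin c × Bool, Function.Injective g ∧ ∀ p, Y.Multi p.1 → g p = f0 p.1 := by
    intro i
    set s : Finset {p // Y.on i p} := univ.filter (fun p => Y.Multi p.1) with hs
    set f : {p // Y.on i p} → Fin c × Bool := fun p => f0 p.1 with hfd
    have hinj : Set.InjOn f s := by
      intro p hp q hq e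
      have h1 : Y.Multi p.1 := by simpa [hs] using hp
      have h2 : Y.Multi q.1 := by simpa [hs] using hq
      exact Subtype.ext (hf _ _ h1 h2 e)
    have hcard : (s.image f).card ≤ Fintype.card {p // Y.on i p} := by
      refine card_image_le.trans ?_
      exact card_le_univ _
    have hcap : Fintype.card {p // Y.on i p} ≤ (univ : Finset (Fin c × Bool)).card := by
      have := Y.cap i
      rw [Fintype.card_subtype, Finset.card_univ, Fintype.card_prod, Fintype.card_bool, Fintype.card_fin]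
      omega
    obtain ⟨t, ht1, -, ht3⟩ := Finset.exists_subsuperset_card_eq (subset_univ (s.image f)) hcard hcap
    obtain ⟨g, hg⟩ := Finset.exists_equiv_extend_of_card_eq ht3.symm ht1 hinj
    refine ⟨fun p => (g p : Fin c × Bool), ?_, ?_⟩
    · intro p q e
      exact g.injective (Subtype.ext e)
    · intro p hp
      exact hg p (by simpa [hs] using hp)
  choose g hg1 hg2 using hex
  have key : ∀ i p (hp : Y.on i p), g (Y.line p) ⟨p, Y.on_line p⟩ = g i ⟨p, hp⟩ := by
    intro i p hp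
    by_cases e : Y.line p = i
    · subst e; rfl
    · have hm : Y.Multi p := ⟨_, _, e, Y.on_line p, hp⟩
      rw [hg2 _ _ hm, hg2 _ _ hm]
  refine ⟨fun p => g (Y.line p) ⟨p, Y.on_line p⟩, fun p hp => hg2 _ _ hp, ?_⟩
  intro i p q hp hq e
  have e' : g (Y.line p) ⟨p, Y.on_line p⟩ = g (Y.line q) ⟨q, Y.on_line q⟩ := e
  rw [key i p hp, key i q hq] at e'
  exact congrArg Subtype.val (hg1 i e')

theorem exists_f0 (Y : Sys α ι c) (hk : (Fintype.card ι) ^ 2 ≤ c) (hc : 0 < c) :
    ∃ f0 : α → Fin c × Bool, ∀ p q, Y.Multi p → Y.Multi q → (f0 p).1 = (f0 q).1 → p = q := by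
  have hex : ∀ s, ∃ z : ι × ι, Y.Multi s → (z.1 ≠ z.2 ∧ Y.on z.1 s ∧ Y.on z.2 s) := by
    intro s
    by_cases h : Y.Multi s
    · obtain ⟨a, b, h1, h2, h3⟩ := h
      exact ⟨(a, b), fun _ => ⟨h1, h2, h3⟩⟩
    · exact ⟨(Y.line s, Y.line s), fun h' => absurd h' h⟩
  choose g hg using hex
  obtain ⟨e⟩ : Nonempty ((ι × ι) ↪ Fin c) := by
    refine Function.Embedding.nonempty_of_card_le ?_
    rw [Fintype.card_prod, Fintype.card_fin]
    nlinarith
  refine ⟨fun s => (e (g s), false), ?_⟩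
  intro p q hp hq h
  have h' : g p = g q := e.injective h
  obtain ⟨a1, a2, a3⟩ := hg p hp
  obtain ⟨b1, b2, b3⟩ := hg q hq
  rw [← h'] at b2 b3
  exact Y.meet _ _ p q a1 a2 a3 b2 b3

noncomputable def Phi (Y : Sys α ι c) (F : α → Fin c × Bool) : ℕ := ∑ p, (Y.bs F p).card ^ 2

noncomputable def E (Y : Sys α ι c) (F : α → Fin c × Bool) (i : ι) (q : α) (y : Fin c × Bool) : ℕ :=
  ∑ p, V Y F i q p y * (2 * (Y.bs F p).card + 4 * Fintype.card ι)

theorem Phi_move (h : Y.St f0 F) {i : ι} {q : α} (hq : Y.on i q) (y : Fin c × Bool) :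
    Phi Y (Y.mv F i (F q) y) ≤ Phi Y F + E Y F i q y := by
  unfold Phi E
  rw [← Finset.sum_add_distrib]
  refine Finset.sum_le_sum (fun p _ => ?_)
  have h1 := bs_move h hq y p
  have h2 : ((Y.bs F p).filter (fun z => z.1 ≠ q)).card ≤ (Y.bs F p).card := card_le_card (filter_subset _ _)
  have h3 := V_le h i q p y
  generalize (Y.bs (Y.mv F i (F q) y) p).card = b' at *
  generalize (Y.bs F p).card = b at *
  generalize V Y F i q p y = v at *
  have h4 : b' ≤ b + v := by omega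
  nlinarith

theorem Phi_move_strict (h : Y.St f0 F) {i : ι} {q : α} (hq : Y.on i q) (y : Fin c × Bool) {p0 r : α}
    (hr : (q, r) ∈ Y.bs F p0) :
    Phi Y (Y.mv F i (F q) y) + 2 * (Y.bs F p0).card ≤ Phi Y F + 1 + E Y F i q y := by
  unfold Phi E
  have e1 : 2 * (Y.bs F p0).card = ∑ p, (if p = p0 then 2 * (Y.bs F p).card else 0) := by simp
  have e2 : (∑ p : α, (if p = p0 then 1 else 0) : ℕ) = 1 := by simp
  rw [e1, ← e2, ← Finset.sum_add_distrib, ← Finset.sum_add_distrib, ← Finset.sum_add_distrib]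
  refine Finset.sum_le_sum (fun p _ => ?_)
  have h1 := bs_move h hq y p
  have h3 := V_le h i q p y
  by_cases hp : p = p0
  · rw [if_pos hp, if_pos hp]
    subst hp
    have h2 : ((Y.bs F p).filter (fun z => z.1 ≠ q)).card + 1 ≤ (Y.bs F p).card := by
      have : ((Y.bs F p).filter (fun z => z.1 ≠ q)) ⊂ Y.bs F p := by
        refine (Finset.filter_ssubset).2 ⟨(q, r), hr, by simp⟩
      exact card_lt_card this
    generalize (Y.bs (Y.mv F i (F q) y) p).card = b' at *
    generalize (Y.bs F p).card = b at *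
    generalize V Y F i q p y = v at *
    obtain ⟨b, rfl⟩ : ∃ b1, b = b1 + 1 := ⟨b - 1, by omega⟩
    have h4 : b' ≤ b + v := by omega
    nlinarith
  · rw [if_neg hp, if_neg hp]
    have h2 : ((Y.bs F p).filter (fun z => z.1 ≠ q)).card ≤ (Y.bs F p).card := card_le_card (filter_subset _ _)
    generalize (Y.bs (Y.mv F i (F q) y) p).card = b' at *
    generalize (Y.bs F p).card = b at *
    generalize V Y F i q p y = v at *
    have h4 : b' ≤ b + v := by omega
    nlinarith

theorem core (Y : Sys α ι c) (hk : 1 ≤ Fintype.card ι) (hc : 1600 * (Fintype.card ι) ^ 4 ≤ c) :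
    ∃ F : α → Fin c × Bool, (∀ i p q, Y.on i p → Y.on i q → F p = F q → p = q) ∧
      ∀ p q r, Y.Tr p q r → ¬ ((F p).1 = (F q).1 ∧ (F q).1 = (F r).1) := by
  set k := Fintype.card ι with hkd
  have k24 : k ^ 2 ≤ k ^ 4 := Nat.pow_le_pow_right hk (by norm_num)
  have k14 : k ≤ k ^ 4 := Nat.le_self_pow (by norm_num) k
  have k04 : 1 ≤ k ^ 4 := Nat.one_le_pow _ _ hk
  obtain ⟨f0, hf0⟩ := Y.exists_f0 (by rw [← hkd]; omega) (by omega)
  obtain ⟨F1, hF1⟩ := Y.exists_St f0 (fun p q hp hq e => hf0 p q hp hq (by rw [e]))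
  set W := 256 * k ^ 4 with hW
  set Psi : (α → Fin c × Bool) → ℕ := fun F => Phi Y F + W * (Y.cs F).card with hPsi
  obtain ⟨⟨F, hF⟩, hmin⟩ : ∃ F : {F // Y.St f0 F}, ∀ G : {F // Y.St f0 F}, Psi F.1 ≤ Psi G.1 := by
    haveI : Nonempty {F // Y.St f0 F} := ⟨⟨F1, hF1⟩⟩
    exact Finite.exists_min (fun F : {F // Y.St f0 F} => Psi F.1)
  refine ⟨F, hF.inj, ?_⟩
  have hmin' : ∀ G, Y.St f0 G → Psi F ≤ Psi G := fun G hG => hmin ⟨G, hG⟩
  have ddup : ∀ p q, Y.Multi p → Y.Multi q → (F p).1 = (F q).1 → p = q := by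
    intro p q hp hq e
    rw [hF.fix p hp, hF.fix q hq] at e
    exact hf0 p q hp hq e
  have irr : ∀ p q r, Y.Tr p q r → q ≠ r := by
    intro p q r h e
    exact Y.off (Y.line q) p q r h (Y.on_line q) (e ▸ Y.on_line q)
  -- the bound on `b`
  have hb : ∀ p, (Y.bs F p).card ≤ 131 * k ^ 4 := by
    rcases isEmpty_or_nonempty α with he | he
    · intro p; exact he.elim p
    obtain ⟨p0, hp0⟩ := Finite.exists_max (fun p => (Y.bs F p).card)
    suffices h : (Y.bs F p0).card ≤ 131 * k ^ 4 from fun p => (hp0 p).trans h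
    rcases Nat.eq_zero_or_pos (Y.bs F p0).card with h0 | h0
    · omega
    obtain ⟨⟨a, b⟩, hab⟩ := card_pos.1 h0
    obtain ⟨q, r, hqr, hq⟩ : ∃ q r, (q, r) ∈ Y.bs F p0 ∧ ¬ Y.Multi q := by
      have hab' := mem_bs.1 hab
      simp only at hab'
      by_cases ha : Y.Multi a
      · by_cases hb : Y.Multi b
        · exact absurd (ddup a b ha hb hab'.2) (irr _ _ _ hab'.1)
        · exact ⟨b, a, mem_bs.2 ⟨Y.s23 _ _ _ hab'.1, hab'.2.symm⟩, hb⟩
      · exact ⟨a, b, hab, ha⟩
    have hqo := Y.on_line q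
    set i := Y.line q with hi
    have hsl := Y.card_slots f0 i (by omega)
    have hstep : ∀ y ∈ slots Y f0 i, 2 * (Y.bs F p0).card ≤ 1 + E Y F i q y + W * H Y F i q y := by
      intro y hy
      have hy' : ∀ s, Y.Multi s → Y.on i s → f0 s ≠ y := by simpa [slots] using hy
      have h1 := hmin' _ (hF.move hqo hq hy')
      have h2 := Phi_move_strict hF hqo y hqr
      have h3 := cs_move hF hqo y
      have h4 : ((Y.cs F).filter (fun z => z.1 ≠ q)).card ≤ (Y.cs F).card := card_le_card (filter_subset _ _)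
      have h5 : (Y.cs (Y.mv F i (F q) y)).card ≤ (Y.cs F).card + H Y F i q y := by omega
      have h6 := Nat.mul_le_mul_left W h5
      rw [Nat.mul_add] at h6
      simp only [hPsi] at h1
      omega
    have hsum := Finset.sum_le_sum hstep
    rw [Finset.sum_const, smul_eq_mul, Finset.sum_add_distrib, Finset.sum_add_distrib, Finset.sum_const, smul_eq_mul,
      ← Finset.mul_sum] at hsum
    have hE := sum_E hF i q (slots Y f0 i)
    have hH := sum_H hF i q (slots Y f0 i)
    have hbq := hp0 q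
    rw [← hkd] at hE hH
    have hE' : ∑ y ∈ slots Y f0 i, E Y F i q y ≤ 128 * c * k ^ 4 := hE
    have hH' := Nat.mul_le_mul_left W hH
    have hsum' : (slots Y f0 i).card * (2 * (Y.bs F p0).card - 1) ≤
        128 * c * k ^ 4 + W * (6 * (Y.bs F q).card + 12 * k ^ 2) := by
      rw [Nat.mul_sub]; omega
    have h7 : c * (2 * (Y.bs F p0).card - 1) ≤ 128 * c * k ^ 4 + W * (6 * (Y.bs F p0).card + 12 * k ^ 2) := by
      refine (Nat.mul_le_mul_right _ hsl).trans (hsum'.trans ?_)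
      refine Nat.add_le_add_left (Nat.mul_le_mul_left _ ?_) _
      omega
    have h8 : W * (6 * (Y.bs F p0).card + 12 * k ^ 2) ≤ c * ((Y.bs F p0).card + 2 * k ^ 2) := by
      have : W * (6 * (Y.bs F p0).card + 12 * k ^ 2) = (6 * W) * ((Y.bs F p0).card + 2 * k ^ 2) := by ring
      rw [this]
      exact Nat.mul_le_mul_right _ (by omega)
    have h9 : c * (2 * (Y.bs F p0).card - 1) ≤ c * (128 * k ^ 4 + (Y.bs F p0).card + 2 * k ^ 2) := by
      calc _ ≤ _ := h7
        _ ≤ 128 * c * k ^ 4 + c * ((Y.bs F p0).card + 2 * k ^ 2) := Nat.add_le_add_left h8 _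
        _ = _ := by ring
    have h10 := Nat.le_of_mul_le_mul_left h9 (by omega)
    omega
  intro p q r ht hcol
  -- a conflict whose first point is free
  obtain ⟨q, hq, hz⟩ : ∃ q, ¬ Y.Multi q ∧ ∃ z ∈ Y.cs F, z.1 = q := by
    by_cases hp : Y.Multi p
    · by_cases hq : Y.Multi q
      · have hpq : p ≠ q := fun e => by
          have := Y.s12 _ _ _ (Y.s23 _ _ _ ht)
          exact irr _ _ _ this e
        exact absurd (ddup p q hp hq hcol.1) hpq
      · exact ⟨q, hq, (q, p, r), mem_cs.2 ⟨Y.s12 _ _ _ ht, hcol.1.symm, hcol.1.trans hcol.2⟩, rfl⟩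
    · exact ⟨p, hp, (p, q, r), mem_cs.2 ⟨ht, hcol⟩, rfl⟩
  obtain ⟨z, hz, hzq⟩ := hz
  have hqo := Y.on_line q
  set i := Y.line q with hi
  have hsl := Y.card_slots f0 i (by omega)
  have hstep : ∀ y ∈ slots Y f0 i, W ≤ E Y F i q y + W * H Y F i q y := by
    intro y hy
    have hy' : ∀ s, Y.Multi s → Y.on i s → f0 s ≠ y := by simpa [slots] using hy
    have h1 := hmin' _ (hF.move hqo hq hy')
    have h2 := Phi_move hF hqo y
    have h3 := cs_move hF hqo y
    have h4 : ((Y.cs F).filter (fun z => z.1 ≠ q)).card + 1 ≤ (Y.cs F).card := by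
      have : ((Y.cs F).filter (fun z => z.1 ≠ q)) ⊂ Y.cs F :=
        (Finset.filter_ssubset).2 ⟨z, hz, by simp [hzq]⟩
      exact card_lt_card this
    have h5 : (Y.cs (Y.mv F i (F q) y)).card + 1 ≤ (Y.cs F).card + H Y F i q y := by omega
    have h6 := Nat.mul_le_mul_left W h5
    rw [Nat.mul_add, Nat.mul_add, mul_one] at h6
    simp only [hPsi] at h1
    omega
  have hsum := Finset.sum_le_sum hstep
  rw [Finset.sum_const, smul_eq_mul, Finset.sum_add_distrib, ← Finset.mul_sum] at hsum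
  have hE := sum_E hF i q (slots Y f0 i)
  have hH := sum_H hF i q (slots Y f0 i)
  rw [← hkd] at hE hH
  have hE' : ∑ y ∈ slots Y f0 i, E Y F i q y ≤ 128 * c * k ^ 4 := hE
  have hH' := Nat.mul_le_mul_left W hH
  have hbq := hb q
  have h7 : c * W ≤ 128 * c * k ^ 4 + W * (6 * (Y.bs F q).card + 12 * k ^ 2) := by
    refine (Nat.mul_le_mul_right _ hsl).trans (hsum.trans ?_)
    omega
  have h8 : 6 * (Y.bs F q).card + 12 * k ^ 2 ≤ 798 * k ^ 4 := by omega
  have h9 : c * W ≤ 128 * c * k ^ 4 + W * (798 * k ^ 4) := h7.trans (Nat.add_le_add_left (Nat.mul_le_mul_left _ h8) _)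
  have h10 : k ^ 4 * (256 * c) ≤ k ^ 4 * (128 * c + 256 * (798 * k ^ 4)) := by
    calc k ^ 4 * (256 * c) = c * W := by rw [hW]; ring
      _ ≤ _ := h9
      _ = _ := by rw [hW]; ring
  have h11 := Nat.le_of_mul_le_mul_left h10 (by omega)
  omega

end Sys

end Pool.X247.GPP
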