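import Pool.Agent.X247.GPP.Core

/-! MP_4c1c99_co: line covers and general position partitions in the Euclidean plane. -/

open Finset

namespace Pool.X247.GPP

open scoped Classical

/-- the Euclidean plane -/
abbrev Pt := EuclideanSpace ℝ (Fin 2)

/-- a line of the plane -/
def IsLine (L : AffineSubspace ℝ Pt) : Prop := Module.finrank ℝ L.direction = 1

/-- no three points of `A` are collinear -/
def GenPos (A : Finset Pt) : Prop :=
  ∀ p ∈ A, ∀ q ∈ A, ∀ r ∈ A, p ≠ q → q ≠ r → p ≠ r → ¬ Collinear ℝ ({p, q, r} : Set Pt)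

/-- `ONLINE(S)`: the largest number of points of `S` on one line -/
noncomputable def onlineNum (S : Finset Pt) : ℕ :=
  sSup {n | ∃ L : AffineSubspace ℝ Pt, IsLine L ∧ (S.filter (fun p => p ∈ L)).card = n}

/-- `LC(S)`: the least number of lines whose union contains `S` -/
noncomputable def lineCover (S : Finset Pt) : ℕ :=
  sInf {n | ∃ C : Finset (AffineSubspace ℝ Pt), C.card = n ∧ (∀ L ∈ C, IsLine L) ∧ ∀ p ∈ S, ∃ L ∈ C, p ∈ L}

/-- `GP(S)`: the least number of parts in a partition of `S` into subsets in general position -/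
noncomputable def gpNum (S : Finset Pt) : ℕ :=
  sInf {n | ∃ P : Finpartition S, P.parts.card = n ∧ ∀ A ∈ P.parts, GenPos A}

theorem collinear_of_line {L : AffineSubspace ℝ Pt} (hL : IsLine L) {p q r : Pt} (hp : p ∈ L) (hq : q ∈ L)
    (hr : r ∈ L) : Collinear ℝ ({p, q, r} : Set Pt) := by
  rw [collinear_iff_finrank_le_one]
  have h1 : affineSpan ℝ ({p, q, r} : Set Pt) ≤ L := by
    rw [affineSpan_le]
    intro x hx
    simp only [Set.mem_insert_iff, Set.mem_singleton_iff] at hx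
    rcases hx with rfl | rfl | rfl <;> assumption
  have h2 := AffineSubspace.direction_le h1
  rw [direction_affineSpan] at h2
  exact (Submodule.finrank_mono h2).trans (le_of_eq hL)

theorem isLine_pair {p q : Pt} (h : p ≠ q) : IsLine line[ℝ, p, q] := by
  unfold IsLine
  rw [direction_affineSpan, vectorSpan_pair]
  exact finrank_span_singleton (by rw [vsub_ne_zero]; exact h)

/-- a line containing two points of a collinear triple contains the third -/
theorem third_mem {L : AffineSubspace ℝ Pt} {p q r : Pt} (h : Collinear ℝ ({p, q, r} : Set Pt)) (hpq : p ≠ q)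
    (hp : p ∈ L) (hq : q ∈ L) : r ∈ L := by
  have h1 : r ∈ line[ℝ, p, q] := h.mem_affineSpan_of_mem_of_ne (by simp) (by simp) (by simp) hpq
  exact affineSpan_pair_le_of_mem_of_mem hp hq h1

theorem fourth_mem {L : AffineSubspace ℝ Pt} {p q r s : Pt} (h : Collinear ℝ ({p, q, r} : Set Pt))
    (h' : Collinear ℝ ({p, q, s} : Set Pt)) (hpq : p ≠ q) (hrs : r ≠ s) (hr : r ∈ L) (hs : s ∈ L) : p ∈ L := by
  have h1 : r ∈ line[ℝ, p, q] := h.mem_affineSpan_of_mem_of_ne (by simp) (by simp) (by simp) hpq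
  have h2 : s ∈ line[ℝ, p, q] := h'.mem_affineSpan_of_mem_of_ne (by simp) (by simp) (by simp) hpq
  have h3 := collinear_of_line (isLine_pair hpq) h1 h2 (left_mem_affineSpan_pair ℝ p q)
  exact third_mem h3 hrs hr hs

theorem lineCover_spec (S : Finset Pt) : ∃ C : Finset (AffineSubspace ℝ Pt), C.card = lineCover S ∧
    (∀ L ∈ C, IsLine L) ∧ ∀ p ∈ S, ∃ L ∈ C, p ∈ L := by
  have hne : {n | ∃ C : Finset (AffineSubspace ℝ Pt), C.card = n ∧ (∀ L ∈ C, IsLine L) ∧
      ∀ p ∈ S, ∃ L ∈ C, p ∈ L}.Nonempty := by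
    obtain ⟨v, hv⟩ := exists_ne (0 : Pt)
    refine ⟨_, S.image (fun p => line[ℝ, p, p + v]), rfl, ?_, ?_⟩
    · intro L hL
      obtain ⟨p, -, rfl⟩ := mem_image.1 hL
      refine isLine_pair ?_
      intro e
      exact hv (by simpa using e.symm)
    · intro p hp
      exact ⟨_, mem_image_of_mem _ hp, left_mem_affineSpan_pair ℝ _ _⟩
  exact Nat.sInf_mem hne

theorem online_bdd (S : Finset Pt) :
    BddAbove {n | ∃ L : AffineSubspace ℝ Pt, IsLine L ∧ (S.filter (fun p => p ∈ L)).card = n} := by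
  refine ⟨S.card, ?_⟩
  rintro n ⟨L, -, rfl⟩
  exact card_le_card (filter_subset _ _)

theorem le_online (S : Finset Pt) {L : AffineSubspace ℝ Pt} (hL : IsLine L) :
    (S.filter (fun p => p ∈ L)).card ≤ onlineNum S :=
  le_csSup (online_bdd S) ⟨L, hL, rfl⟩

theorem online_spec (S : Finset Pt) : ∃ L : AffineSubspace ℝ Pt, IsLine L ∧
    (S.filter (fun p => p ∈ L)).card = onlineNum S := by
  have hne : {n | ∃ L : AffineSubspace ℝ Pt, IsLine L ∧ (S.filter (fun p => p ∈ L)).card = n}.Nonempty := by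
    obtain ⟨v, hv⟩ := exists_ne (0 : Pt)
    exact ⟨_, line[ℝ, 0, v], isLine_pair hv.symm, rfl⟩
  exact Nat.sSup_mem hne (online_bdd S)

/-- the number of points is at most the number of lines times the largest number of points on a line -/
theorem card_le_mul (S : Finset Pt) (C : Finset (AffineSubspace ℝ Pt)) (h1 : ∀ L ∈ C, IsLine L)
    (h2 : ∀ p ∈ S, ∃ L ∈ C, p ∈ L) : S.card ≤ C.card * onlineNum S := by
  have hsub : S ⊆ C.biUnion (fun L => S.filter (fun p => p ∈ L)) := by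
    intro p hp
    obtain ⟨L, hL, hpL⟩ := h2 p hp
    exact mem_biUnion.2 ⟨L, hL, mem_filter.2 ⟨hp, hpL⟩⟩
  refine (card_le_card hsub).trans (card_biUnion_le_card_mul _ _ _ ?_)
  intro L hL
  exact le_online S (h1 L hL)

/-- the easy lower bound: a part meets a line in at most two points -/
theorem online_le_two_mul (S : Finset Pt) (P : Finpartition S) (hP : ∀ A ∈ P.parts, GenPos A) :
    onlineNum S ≤ 2 * P.parts.card := by
  obtain ⟨L, hL, hc⟩ := online_spec S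
  rw [← hc]
  have hsub : S.filter (fun p => p ∈ L) ⊆ P.parts.biUnion (fun A => A.filter (fun p => p ∈ L)) := by
    intro p hp
    obtain ⟨hp, hpL⟩ := mem_filter.1 hp
    obtain ⟨A, hA, hpA⟩ := P.exists_mem hp
    exact mem_biUnion.2 ⟨A, hA, mem_filter.2 ⟨hpA, hpL⟩⟩
  rw [mul_comm]
  refine (card_le_card hsub).trans (card_biUnion_le_card_mul _ _ _ ?_)
  intro A hA
  by_contra hlt
  push Not at hlt
  obtain ⟨p, q, r, hp, hq, hr, hpq, hpr, hqr⟩ := Finset.two_lt_card_iff.1 hlt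
  rw [mem_filter] at hp hq hr
  exact hP A hA p hp.1 q hq.1 r hr.1 hpq hqr hpr (collinear_of_line hL hp.2 hq.2 hr.2)

/-- a covered configuration as a combinatorial system -/
noncomputable def sys (S : Finset Pt) (C : Finset (AffineSubspace ℝ Pt)) (h1 : ∀ L ∈ C, IsLine L)
    (h2 : ∀ p ∈ S, ∃ L ∈ C, p ∈ L) (c : ℕ) (hc : onlineNum S ≤ 2 * c) : Sys {p // p ∈ S} {L // L ∈ C} c where
  on L p := p.1 ∈ L.1
  Tr p q r := (p ≠ q ∧ q ≠ r ∧ p ≠ r) ∧ Collinear ℝ ({p.1, q.1, r.1} : Set Pt) ∧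
    ∀ L ∈ C, ¬ (p.1 ∈ L ∧ q.1 ∈ L) ∧ ¬ (q.1 ∈ L ∧ r.1 ∈ L) ∧ ¬ (p.1 ∈ L ∧ r.1 ∈ L)
  cover p := by
    obtain ⟨L, hL, hp⟩ := h2 p.1 p.2
    exact ⟨⟨L, hL⟩, hp⟩
  cap L := by
    refine le_trans ?_ hc
    refine le_trans ?_ (le_online S (h1 L.1 L.2))
    refine Finset.card_le_card_of_injOn (fun p => p.1) ?_ ?_
    · intro p hp
      have : p.1 ∈ L.1 := by simpa using hp
      simpa using this
    · intro p _ q _ e
      exact Subtype.ext e
  meet L M p q hLM hp hq hp' hq' := by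
    by_contra hne
    have hne' : p.1 ≠ q.1 := fun e => hne (Subtype.ext e)
    have e1 : line[ℝ, p.1, q.1] ≤ L.1 := affineSpan_pair_le_of_mem_of_mem hp hp'
    have e2 : line[ℝ, p.1, q.1] ≤ M.1 := affineSpan_pair_le_of_mem_of_mem hq hq'
    have key : ∀ K : AffineSubspace ℝ Pt, IsLine K → line[ℝ, p.1, q.1] ≤ K → line[ℝ, p.1, q.1] = K := by
      intro K hK hle
      have hd : (line[ℝ, p.1, q.1]).direction = K.direction :=
        Submodule.eq_of_le_of_finrank_eq (AffineSubspace.direction_le hle) ((isLine_pair hne').trans hK.symm)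
      exact AffineSubspace.eq_of_direction_eq_of_nonempty_of_le hd ⟨p.1, left_mem_affineSpan_pair ℝ _ _⟩ hle
    exact hLM (Subtype.ext ((key L.1 (h1 _ L.2) e1).symm.trans (key M.1 (h1 _ M.2) e2)))
  s12 p q r h := by
    obtain ⟨⟨a, b, d⟩, e, f⟩ := h
    refine ⟨⟨a.symm, d, b⟩, by rwa [Set.insert_comm], ?_⟩
    intro L hL
    obtain ⟨f1, f2, f3⟩ := f L hL
    exact ⟨fun x => f1 x.symm, f3, f2⟩
  s23 p q r h := by
    obtain ⟨⟨a, b, d⟩, e, f⟩ := h
    refine ⟨⟨d, b.symm, a⟩, by rwa [Set.pair_comm], ?_⟩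
    intro L hL
    obtain ⟨f1, f2, f3⟩ := f L hL
    exact ⟨f3, fun x => f2 x.symm, f1⟩
  off L p q r h hq hr := (h.2.2 L.1 L.2).2.1 ⟨hq, hr⟩
  uniq L p q r r' h h' hr hr' := by
    by_contra hne
    have hne' : r.1 ≠ r'.1 := fun e => hne (Subtype.ext e)
    have hpq : p.1 ≠ q.1 := fun e => h.1.1 (Subtype.ext e)
    have hp : p.1 ∈ L.1 := fourth_mem h.2.1 h'.2.1 hpq hne' hr hr'
    exact (h.2.2 L.1 L.2).2.2 ⟨hp, hr⟩

/-- a configuration covered by few lines, one of which has many points -/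
theorem upper (S : Finset Pt) (C : Finset (AffineSubspace ℝ Pt)) (h1 : ∀ L ∈ C, IsLine L)
    (h2 : ∀ p ∈ S, ∃ L ∈ C, p ∈ L) (c : ℕ) (hc : onlineNum S ≤ 2 * c) (hk : 1600 * C.card ^ 4 ≤ c) :
    ∃ P : Finpartition S, P.parts.card ≤ c ∧ ∀ A ∈ P.parts, GenPos A := by
  rcases Nat.eq_zero_or_pos C.card with h0 | h0
  · have hC : C = ∅ := card_eq_zero.1 h0
    have hS : S = ∅ := by
      rw [Finset.eq_empty_iff_forall_notMem]
      intro p hp
      obtain ⟨L, hL, -⟩ := h2 p hp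
      rw [hC] at hL
      exact absurd hL (notMem_empty _)
    subst hS
    refine ⟨Finpartition.empty _, by simp, ?_⟩
    intro A hA
    simp at hA
  have hcard : Fintype.card {L // L ∈ C} = C.card := by simp
  obtain ⟨F, hF1, hF2⟩ := Sys.core (sys S C h1 h2 c hc) (by rw [hcard]; exact h0) (by rw [hcard]; exact hk)
  set cl : Fin c → Finset Pt := fun col => S.filter (fun p => ∃ h : p ∈ S, (F ⟨p, h⟩).1 = col) with hcl
  have hmem : ∀ col p, p ∈ cl col ↔ ∃ h : p ∈ S, (F ⟨p, h⟩).1 = col := by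
    intro col p
    simp only [hcl, mem_filter]
    constructor
    · rintro ⟨_, h⟩; exact h
    · rintro ⟨h, e⟩; exact ⟨h, h, e⟩
  set parts : Finset (Finset Pt) := (univ : Finset (Fin c)).image cl with hparts
  have hdisj : (parts : Set (Finset Pt)).PairwiseDisjoint id := by
    intro A hA B hB hAB
    obtain ⟨a, -, rfl⟩ := mem_image.1 (Finset.mem_coe.1 hA)
    obtain ⟨b, -, rfl⟩ := mem_image.1 (Finset.mem_coe.1 hB)
    refine Finset.disjoint_left.2 ?_
    intro p hp hq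
    obtain ⟨h, e⟩ := (hmem a p).1 hp
    obtain ⟨_, e'⟩ := (hmem b p).1 hq
    exact hAB (by rw [← e, ← e'])
  have hsup : parts.sup id = S := by
    ext p
    rw [Finset.mem_sup]
    constructor
    · rintro ⟨A, hA, hp⟩
      obtain ⟨a, -, rfl⟩ := mem_image.1 hA
      exact ((hmem a p).1 hp).1
    · intro hp
      exact ⟨cl (F ⟨p, hp⟩).1, mem_image_of_mem _ (mem_univ _), (hmem _ p).2 ⟨hp, rfl⟩⟩
  refine ⟨Finpartition.ofErase parts (Finset.supIndep_iff_pairwiseDisjoint.2 hdisj) hsup, ?_, ?_⟩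
  · have e1 : (Finpartition.ofErase parts (Finset.supIndep_iff_pairwiseDisjoint.2 hdisj) hsup).parts =
      parts.erase ⊥ := rfl
    rw [e1]
    refine (card_erase_le).trans (card_image_le.trans ?_)
    simp
  · intro A hA
    have hA' : A ∈ parts := by
      have : A ∈ parts.erase ⊥ := hA
      exact mem_of_mem_erase this
    obtain ⟨a, -, rfl⟩ := mem_image.1 hA'
    intro p hp q hq r hr hpq hqr hpr hcol
    obtain ⟨hpS, ep⟩ := (hmem a p).1 hp
    obtain ⟨hqS, eq⟩ := (hmem a q).1 hq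
    obtain ⟨hrS, er⟩ := (hmem a r).1 hr
    have three : ∀ L ∈ C, p ∈ L → q ∈ L → r ∈ L → False := by
      intro L hL h1 h2 h3
      have a1 : F ⟨p, hpS⟩ ≠ F ⟨q, hqS⟩ := fun e => hpq (congrArg Subtype.val (hF1 ⟨L, hL⟩ ⟨p, hpS⟩ ⟨q, hqS⟩ h1 h2 e))
      have a2 : F ⟨q, hqS⟩ ≠ F ⟨r, hrS⟩ := fun e => hqr (congrArg Subtype.val (hF1 ⟨L, hL⟩ ⟨q, hqS⟩ ⟨r, hrS⟩ h2 h3 e))
      have a3 : F ⟨p, hpS⟩ ≠ F ⟨r, hrS⟩ := fun e => hpr (congrArg Subtype.val (hF1 ⟨L, hL⟩ ⟨p, hpS⟩ ⟨r, hrS⟩ h1 h3 e))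
      have b1 : (F ⟨p, hpS⟩).2 ≠ (F ⟨q, hqS⟩).2 := fun e => a1 (Prod.ext (ep.trans eq.symm) e)
      have b2 : (F ⟨q, hqS⟩).2 ≠ (F ⟨r, hrS⟩).2 := fun e => a2 (Prod.ext (eq.trans er.symm) e)
      have b3 : (F ⟨p, hpS⟩).2 ≠ (F ⟨r, hrS⟩).2 := fun e => a3 (Prod.ext (ep.trans er.symm) e)
      revert b1 b2 b3
      generalize (F ⟨p, hpS⟩).2 = x
      generalize (F ⟨q, hqS⟩).2 = y
      generalize (F ⟨r, hrS⟩).2 = z
      revert x y z
      decide
    refine hF2 ⟨p, hpS⟩ ⟨q, hqS⟩ ⟨r, hrS⟩ ?_ ⟨ep.trans eq.symm, eq.trans er.symm⟩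
    refine ⟨⟨fun e => hpq (congrArg Subtype.val e), fun e => hqr (congrArg Subtype.val e),
      fun e => hpr (congrArg Subtype.val e)⟩, hcol, ?_⟩
    intro L hL
    refine ⟨?_, ?_, ?_⟩
    · rintro ⟨x1, x2⟩
      exact three L hL x1 x2 (third_mem hcol hpq x1 x2)
    · rintro ⟨x1, x2⟩
      refine three L hL (third_mem (r := p) (p := q) (q := r) ?_ hqr x1 x2) x1 x2
      rwa [Set.insert_comm q r, Set.pair_comm q p, Set.insert_comm r p, Set.pair_comm r q]
    · rintro ⟨x1, x2⟩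
      refine three L hL x1 (third_mem (r := q) (p := p) (q := r) ?_ hpr x1 x2) x2
      rwa [Set.pair_comm r q]

theorem gp_eq (S : Finset Pt) (C : Finset (AffineSubspace ℝ Pt)) (h1 : ∀ L ∈ C, IsLine L)
    (h2 : ∀ p ∈ S, ∃ L ∈ C, p ∈ L) (hk : 1600 * C.card ^ 4 ≤ (onlineNum S + 1) / 2) :
    gpNum S = (onlineNum S + 1) / 2 := by
  obtain ⟨P, hP1, hP2⟩ := upper S C h1 h2 ((onlineNum S + 1) / 2) (by omega) hk
  refine le_antisymm ?_ ?_
  · have hle : gpNum S ≤ P.parts.card := Nat.sInf_le ⟨P, rfl, hP2⟩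
    exact hle.trans hP1
  · have hne : {n | ∃ P : Finpartition S, P.parts.card = n ∧ ∀ A ∈ P.parts, GenPos A}.Nonempty := ⟨_, P, rfl, hP2⟩
    obtain ⟨Q, hQ1, hQ2⟩ := Nat.sInf_mem hne
    have h3 := online_le_two_mul S Q hQ2
    have h4 : gpNum S = Q.parts.card := hQ1.symm
    omega

end Pool.X247.GPP
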