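import Pool.Agent.X247.GPP.Geom
import Pool.Agent.H671R2.PolyAuto
import Pool.Agent.H612.CollectPoly
import Pool.Agent.H687R2.IntPoly
import Pool.Agent.ER.Rat

/-! MP_4c1c99_co, Q2: the kernel. -/

open Finset

namespace Pool.X247.GPP

open scoped Classical
open Pool.Agent.NPC

/-- a rational point as a point of the Euclidean plane -/
noncomputable def toPt (p : ℚ × ℚ) : Pt := !₂[(p.1 : ℝ), (p.2 : ℝ)]

/-- the configuration given by a list of rational points -/
noncomputable def conf (l : List (ℚ × ℚ)) : Finset Pt := (l.map toPt).toFinset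

theorem toPt_inj : Function.Injective toPt := by
  intro p q h
  have h0 : toPt p 0 = toPt q 0 := by rw [h]
  have h1 : toPt p 1 = toPt q 1 := by rw [h]
  simp only [toPt] at h0 h1
  simp at h0 h1
  exact Prod.ext h0 h1

theorem mem_line_iff (p q r : ℚ × ℚ) (h : p ≠ q) :
    toPt r ∈ line[ℝ, toPt p, toPt q] ↔ (q.1 - p.1) * (r.2 - p.2) = (q.2 - p.2) * (r.1 - p.1) := by
  have hiff : toPt r ∈ line[ℝ, toPt p, toPt q] ↔
      ∃ t : ℝ, (AffineMap.lineMap (toPt p) (toPt q) t : Pt) = toPt r := by
    constructor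
    · intro hr
      have h1 := AffineSubspace.vsub_mem_direction hr (left_mem_affineSpan_pair ℝ (toPt p) (toPt q))
      rw [direction_affineSpan, mem_vectorSpan_pair_rev] at h1
      obtain ⟨t, ht⟩ := h1
      refine ⟨t, ?_⟩
      rw [AffineMap.lineMap_apply, ht]
      simp
    · rintro ⟨t, ht⟩
      rw [← ht]
      exact AffineMap.lineMap_mem_affineSpan_pair _ _ _
  rw [hiff]
  constructor
  · rintro ⟨t, ht⟩
    have h0 : (AffineMap.lineMap (toPt p) (toPt q) t : Pt) 0 = toPt r 0 := by rw [ht]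
    have h1 : (AffineMap.lineMap (toPt p) (toPt q) t : Pt) 1 = toPt r 1 := by rw [ht]
    simp [toPt, AffineMap.lineMap_apply] at h0 h1
    have : ((q.1 - p.1) * (r.2 - p.2) : ℝ) = (q.2 - p.2) * (r.1 - p.1) := by
      rw [← h0, ← h1]; ring
    exact_mod_cast this
  · intro e
    have e' : ((q.1 - p.1) * (r.2 - p.2) : ℝ) = (q.2 - p.2) * (r.1 - p.1) := by exact_mod_cast e
    by_cases h1 : q.1 = p.1
    · have h2 : (q.2 : ℝ) - p.2 ≠ 0 := by
        intro h3
        have : (q.2 : ℝ) = p.2 := by linarith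
        exact h (Prod.ext h1.symm (by exact_mod_cast this.symm))
      have h1' : (q.1 : ℝ) = p.1 := by exact_mod_cast h1
      have h3 : (r.1 : ℝ) = p.1 := by
        rw [h1', sub_self, zero_mul] at e'
        rcases mul_eq_zero.1 e'.symm with h4 | h4
        · exact absurd h4 h2
        · linarith
      refine ⟨(r.2 - p.2) / (q.2 - p.2), ?_⟩
      ext i
      fin_cases i
      · simp [toPt, AffineMap.lineMap_apply, h1', h3]
      · simp [toPt, AffineMap.lineMap_apply]
        field_simp
        ring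
    · have h2 : (q.1 : ℝ) - p.1 ≠ 0 := by
        intro h3
        have : (q.1 : ℝ) = p.1 := by linarith
        exact h1 (by exact_mod_cast this)
      refine ⟨(r.1 - p.1) / (q.1 - p.1), ?_⟩
      ext i
      fin_cases i
      · simp [toPt, AffineMap.lineMap_apply]
        field_simp
        ring
      · simp [toPt, AffineMap.lineMap_apply]
        field_simp
        linarith

/-- the numerator of a difference -/
def dn (a b : ℚ) : ℤ := a.num * b.den - b.num * a.den

theorem dn_eq (a b : ℚ) : a - b = (dn a b : ℚ) / ((a.den : ℚ) * b.den) := by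
  have ha : (a.den : ℚ) ≠ 0 := by exact_mod_cast a.den_nz
  have hb : (b.den : ℚ) ≠ 0 := by exact_mod_cast b.den_nz
  have e1 : a = a.num / a.den := (Rat.num_div_den a).symm
  have e2 : b = b.num / b.den := (Rat.num_div_den b).symm
  rw [dn]
  push_cast
  conv_lhs => rw [e1, e2]
  field_simp

/-- the collinearity test -/
def colB (p q r : ℚ × ℚ) : Bool :=
  decide (dn q.1 p.1 * dn r.2 p.2 * ((q.2.den : ℤ) * (r.1.den : ℤ)) =
    dn q.2 p.2 * dn r.1 p.1 * ((q.1.den : ℤ) * (r.2.den : ℤ)))

theorem colB_iff (p q r : ℚ × ℚ) :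
    colB p q r = true ↔ (q.1 - p.1) * (r.2 - p.2) = (q.2 - p.2) * (r.1 - p.1) := by
  unfold colB
  rw [decide_eq_true_iff, dn_eq q.1 p.1, dn_eq r.2 p.2, dn_eq q.2 p.2, dn_eq r.1 p.1]
  have h : ∀ a : ℚ, (a.den : ℚ) ≠ 0 := fun a => by exact_mod_cast a.den_nz
  have h1 := h p.1
  have h2 := h p.2
  have h3 := h q.1
  have h4 := h q.2
  have h5 := h r.1
  have h6 := h r.2
  rw [div_mul_div_comm, div_mul_div_comm, div_eq_div_iff (by positivity) (by positivity)]
  constructor
  · intro e
    have e' : (dn q.1 p.1 : ℚ) * dn r.2 p.2 * ((q.2.den : ℚ) * r.1.den) =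
      dn q.2 p.2 * dn r.1 p.1 * ((q.1.den : ℚ) * r.2.den) := by exact_mod_cast e
    linear_combination (p.1.den * p.2.den : ℚ) * e'
  · intro e
    have e' : ((p.1.den : ℚ) * p.2.den) * ((dn q.1 p.1 : ℚ) * dn r.2 p.2 * ((q.2.den : ℚ) * r.1.den)) =
      ((p.1.den : ℚ) * p.2.den) * (dn q.2 p.2 * dn r.1 p.1 * ((q.1.den : ℚ) * r.2.den)) := by
      linear_combination e
    have := mul_left_cancel₀ (mul_ne_zero h1 h2) e'
    exact_mod_cast this

theorem colB_line (p q r : ℚ × ℚ) (h : p ≠ q) : colB p q r = true ↔ toPt r ∈ line[ℝ, toPt p, toPt q] := by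
  rw [colB_iff, mem_line_iff p q r h]

/-- the lists of the points on the lines through two points -/
def lns (D : List (ℚ × ℚ)) : List (List (ℚ × ℚ)) :=
  ((D ×ˢ D).filter (fun z => decide (z.1 ≠ z.2))).map (fun z => D.filter (fun r => colB z.1 z.2 r))

/-- the lines with more than `t` points -/
def heavy (D : List (ℚ × ℚ)) (t : ℕ) : List (List (ℚ × ℚ)) :=
  ((lns D).filter (fun s => decide (t < s.length))).dedup

/-- the points on no heavy line -/
def rest (D : List (ℚ × ℚ)) (t : ℕ) : List (ℚ × ℚ) :=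
  D.filter (fun p => !((heavy D t).any (fun s => decide (p ∈ s))))

/-- the threshold -/
def thr (t : ℕ) : ℕ := 3200 * ((t + t * t) * (t + t * t) * ((t + t * t) * (t + t * t)))

def okT (D : List (ℚ × ℚ)) (t : ℕ) : Bool :=
  (lns D).any (fun s => decide (thr t ≤ s.length)) &&
    (decide ((heavy D t).length ≤ t) && decide ((rest D t).length ≤ t * t))

def okD (D : List (ℚ × ℚ)) : Bool := (List.range (D.length + 1)).any (fun t => okT D t)

/-- the kernel -/
def ker (I : List (ℚ × ℚ) × ℕ) : List (ℚ × ℚ) × ℕ :=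
  if okD I.1.dedup = true then
    (if (lns I.1.dedup).any (fun s => decide (2 * I.2 < s.length)) = true then ([(0, 0)], 0) else ([], 0))
  else (I.1.dedup, min I.2 I.1.dedup.length)

section poly

variable {α : Type} [TEnc α]

theorem poly_num {q : α → ℚ} (hq : Poly q) : Poly (fun a => (q a).num) := by
  have h : Poly (fun a => (((q a).num, (q a).den) : ℤ × ℕ)) := hq
  exact Poly.fst h

theorem poly_den {q : α → ℚ} (hq : Poly q) : Poly (fun a => (q a).den) := by
  have h : Poly (fun a => (((q a).num, (q a).den) : ℤ × ℕ)) := hq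
  exact Poly.snd h

theorem poly_dn {p q : α → ℚ} (hp : Poly p) (hq : Poly q) : Poly (fun a => dn (p a) (q a)) :=
  Poly.isub (Poly.imul (poly_num hp) (Poly.natCast (poly_den hq)))
    (Poly.imul (poly_num hq) (Poly.natCast (poly_den hp)))

theorem poly_colB {p q r : α → ℚ × ℚ} (hp : Poly p) (hq : Poly q) (hr : Poly r) :
    Poly (fun a => colB (p a) (q a) (r a)) := by
  unfold colB
  exact Poly.decide_eq
    (Poly.imul (Poly.imul (poly_dn (Poly.fst hq) (Poly.fst hp)) (poly_dn (Poly.snd hr) (Poly.snd hp)))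
      (Poly.imul (Poly.natCast (poly_den (Poly.snd hq))) (Poly.natCast (poly_den (Poly.fst hr)))))
    (Poly.imul (Poly.imul (poly_dn (Poly.snd hq) (Poly.snd hp)) (poly_dn (Poly.fst hr) (Poly.fst hp)))
      (Poly.imul (Poly.natCast (poly_den (Poly.fst hq))) (Poly.natCast (poly_den (Poly.snd hr)))))

attribute [local fun_prop] poly_colB

theorem poly_lns {D : α → List (ℚ × ℚ)} (hD : Poly D) : Poly (fun a => lns (D a)) := by
  unfold lns
  fun_prop

attribute [local fun_prop] poly_lns

theorem poly_heavy {D : α → List (ℚ × ℚ)} {t : α → ℕ} (hD : Poly D) (ht : Poly t) :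
    Poly (fun a => heavy (D a) (t a)) := by
  unfold heavy
  refine Pool.Agent.NPC.H612.poly_dedup ?_
  have := poly_lns hD
  fun_prop

attribute [local fun_prop] poly_heavy

theorem poly_rest {D : α → List (ℚ × ℚ)} {t : α → ℕ} (hD : Poly D) (ht : Poly t) :
    Poly (fun a => rest (D a) (t a)) := by
  unfold rest
  fun_prop

attribute [local fun_prop] poly_rest

theorem poly_okT {D : α → List (ℚ × ℚ)} {t : α → ℕ} (hD : Poly D) (ht : Poly t) :
    Poly (fun a => okT (D a) (t a)) := by
  unfold okT thr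
  have h1 := poly_lns hD
  have h2 := poly_heavy hD ht
  have h3 := poly_rest hD ht
  fun_prop

theorem poly_okD {D : α → List (ℚ × ℚ)} (hD : Poly D) : Poly (fun a => okD (D a)) := by
  unfold okD
  have h1 : Poly (fun a => List.range ((D a).length + 1)) :=
    Poly.range_uPoly (UPoly.add (UPoly.length hD) (UPoly.const 1))
  exact Poly.any (p := fun a t => okT (D a) t) h1 (poly_okT (hD.comp (Poly.fst Poly.id)) (Poly.snd Poly.id))

theorem poly_ker : Poly ker := by
  unfold ker
  have hD : Poly (fun I : List (ℚ × ℚ) × ℕ => I.1.dedup) := Pool.Agent.NPC.H612.poly_dedup (Poly.fst Poly.id)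
  have h1 := poly_okD hD
  have h2 := poly_lns hD
  fun_prop

end poly

end Pool.X247.GPP
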