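import Pool.Agent.X247.GPP.Kernel

/-! MP_4c1c99_co, Q2: correctness of the kernel. -/

open Finset

namespace Pool.X247.GPP

open scoped Classical
open Pool.Agent.NPC

theorem mem_conf {l : List (ℚ × ℚ)} {x : Pt} : x ∈ conf l ↔ ∃ r ∈ l, toPt r = x := by
  simp [conf]

theorem toPt_mem_conf {l : List (ℚ × ℚ)} {r : ℚ × ℚ} : toPt r ∈ conf l ↔ r ∈ l := by
  rw [mem_conf]
  constructor
  · rintro ⟨r', h, e⟩; exact toPt_inj e ▸ h
  · intro h; exact ⟨r, h, rfl⟩

theorem conf_dedup (l : List (ℚ × ℚ)) : conf l.dedup = conf l := by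
  ext x
  simp [mem_conf]

theorem conf_card {D : List (ℚ × ℚ)} (hD : D.Nodup) : (conf D).card = D.length := by
  unfold conf
  rw [List.toFinset_card_of_nodup (hD.map toPt_inj), List.length_map]

/-- the list of the points of a line -/
noncomputable def pl (D : List (ℚ × ℚ)) (L : AffineSubspace ℝ Pt) : List (ℚ × ℚ) :=
  D.filter (fun r => decide (toPt r ∈ L))

theorem conf_pl (D : List (ℚ × ℚ)) (L : AffineSubspace ℝ Pt) : conf (pl D L) = (conf D).filter (fun x => x ∈ L) := by
  ext x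
  rw [mem_filter, mem_conf, mem_conf]
  unfold pl
  constructor
  · rintro ⟨r, hr, rfl⟩
    have h := List.mem_filter.1 hr
    exact ⟨⟨r, h.1, rfl⟩, by simpa using h.2⟩
  · rintro ⟨⟨r, hr, rfl⟩, h⟩
    exact ⟨r, List.mem_filter.2 ⟨hr, by simpa using h⟩, rfl⟩

theorem length_pl {D : List (ℚ × ℚ)} (hD : D.Nodup) (L : AffineSubspace ℝ Pt) :
    (pl D L).length = ((conf D).filter (fun x => x ∈ L)).card := by
  rw [← conf_pl, conf_card]
  exact hD.filter _

theorem mem_pl {D : List (ℚ × ℚ)} {L : AffineSubspace ℝ Pt} {r : ℚ × ℚ} : r ∈ pl D L ↔ r ∈ D ∧ toPt r ∈ L := by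
  unfold pl
  rw [List.mem_filter]
  simp

theorem mem_lns {D : List (ℚ × ℚ)} {s : List (ℚ × ℚ)} : s ∈ lns D ↔
    ∃ p q, p ∈ D ∧ q ∈ D ∧ p ≠ q ∧ s = pl D line[ℝ, toPt p, toPt q] := by
  unfold lns
  rw [List.mem_map]
  constructor
  · rintro ⟨⟨p, q⟩, h, rfl⟩
    have h' := List.mem_filter.1 h
    have h1 : p ∈ D ∧ q ∈ D := List.mem_product.1 h'.1
    have h2 : p ≠ q := by simpa using h'.2
    refine ⟨p, q, h1.1, h1.2, h2, ?_⟩
    unfold pl
    refine List.filter_congr ?_
    intro r _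
    rw [Bool.eq_iff_iff, colB_line p q r h2]
    simp
  · rintro ⟨p, q, hp, hq, hpq, rfl⟩
    refine ⟨(p, q), List.mem_filter.2 ⟨List.mem_product.2 ⟨hp, hq⟩, by simpa using hpq⟩, ?_⟩
    unfold pl
    refine List.filter_congr ?_
    intro r _
    rw [Bool.eq_iff_iff, colB_line p q r hpq]
    simp

theorem line_eq {L : AffineSubspace ℝ Pt} (hL : IsLine L) {x y : Pt} (hx : x ∈ L) (hy : y ∈ L) (hxy : x ≠ y)
    (z : Pt) : z ∈ line[ℝ, x, y] ↔ z ∈ L := by
  constructor
  · intro h; exact affineSpan_pair_le_of_mem_of_mem hx hy h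
  · intro h
    exact (collinear_of_line hL hx hy h).mem_affineSpan_of_mem_of_ne (by simp) (by simp) (by simp) hxy

theorem pl_mem_lns {D : List (ℚ × ℚ)} {L : AffineSubspace ℝ Pt} (hL : IsLine L) {p q : ℚ × ℚ} (hp : p ∈ D)
    (hq : q ∈ D) (hpq : p ≠ q) (hpL : toPt p ∈ L) (hqL : toPt q ∈ L) : pl D L ∈ lns D := by
  rw [mem_lns]
  refine ⟨p, q, hp, hq, hpq, ?_⟩
  unfold pl
  refine List.filter_congr ?_
  intro r _
  rw [Bool.eq_iff_iff]
  have := line_eq hL hpL hqL (fun e => hpq (toPt_inj e)) (toPt r)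
  simp [this]

/-- a line with at least two points is listed -/
theorem pl_mem_lns' {D : List (ℚ × ℚ)} {L : AffineSubspace ℝ Pt} (hL : IsLine L)
    (h2 : 2 ≤ ((conf D).filter (fun x => x ∈ L)).card) : pl D L ∈ lns D := by
  have h2' : 1 < ((conf D).filter (fun x => x ∈ L)).card := by omega
  obtain ⟨x, hx, y, hy, hxy⟩ := Finset.one_lt_card.1 h2'
  rw [mem_filter] at hx hy
  obtain ⟨p, hp, rfl⟩ := mem_conf.1 hx.1
  obtain ⟨q, hq, rfl⟩ := mem_conf.1 hy.1
  exact pl_mem_lns hL hp hq (fun e => hxy (by rw [e])) hx.2 hy.2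

theorem lns_spec {D s : List (ℚ × ℚ)} (hs : s ∈ lns D) : ∃ L, IsLine L ∧ s = pl D L := by
  obtain ⟨p, q, -, -, hpq, rfl⟩ := mem_lns.1 hs
  exact ⟨_, isLine_pair (fun e => hpq (toPt_inj e)), rfl⟩

theorem lns_len {D s : List (ℚ × ℚ)} (hD : D.Nodup) (hs : s ∈ lns D) : s.length ≤ onlineNum (conf D) := by
  obtain ⟨L, hL, rfl⟩ := lns_spec hs
  rw [length_pl hD]
  exact le_online _ hL

theorem two_le_online {D s : List (ℚ × ℚ)} (hs : s ∈ lns D) : 2 ≤ onlineNum (conf D) := by
  obtain ⟨p, q, hp, hq, hpq, rfl⟩ := mem_lns.1 hs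
  have hpq' : toPt p ≠ toPt q := fun e => hpq (toPt_inj e)
  refine le_trans ?_ (le_online _ (isLine_pair hpq'))
  have : 1 < ((conf D).filter (fun x => x ∈ line[ℝ, toPt p, toPt q])).card := by
    rw [Finset.one_lt_card]
    exact ⟨toPt p, mem_filter.2 ⟨toPt_mem_conf.2 hp, left_mem_affineSpan_pair ℝ _ _⟩, toPt q,
      mem_filter.2 ⟨toPt_mem_conf.2 hq, right_mem_affineSpan_pair ℝ _ _⟩, hpq'⟩
  omega

theorem exists_max_line {D : List (ℚ × ℚ)} (hD : D.Nodup) (h2 : 2 ≤ onlineNum (conf D)) :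
    ∃ s ∈ lns D, s.length = onlineNum (conf D) := by
  obtain ⟨L, hL, hc⟩ := online_spec (conf D)
  refine ⟨pl D L, pl_mem_lns' hL (by omega), ?_⟩
  rw [length_pl hD, hc]

theorem thr_eq (t : ℕ) : thr t = 3200 * (t + t * t) ^ 4 := by
  unfold thr; ring

theorem mem_heavy {D : List (ℚ × ℚ)} {t : ℕ} {s : List (ℚ × ℚ)} : s ∈ heavy D t ↔ s ∈ lns D ∧ t < s.length := by
  unfold heavy
  rw [List.mem_dedup, List.mem_filter]
  simp

theorem mem_rest {D : List (ℚ × ℚ)} {t : ℕ} {p : ℚ × ℚ} : p ∈ rest D t ↔ p ∈ D ∧ ∀ s ∈ heavy D t, p ∉ s := by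
  unfold rest
  rw [List.mem_filter]
  simp

theorem exists_dir : ∃ v : Pt, ∀ p : Pt, p ≠ p + v := by
  obtain ⟨v, hv⟩ := exists_ne (0 : Pt)
  exact ⟨v, fun p e => hv (by simpa using e.symm)⟩

theorem exists_lineOf (D : List (ℚ × ℚ)) : ∃ Lf : List (ℚ × ℚ) → AffineSubspace ℝ Pt, (∀ s, IsLine (Lf s)) ∧
    ∀ s ∈ lns D, s = pl D (Lf s) := by
  obtain ⟨v, hv⟩ := exists_dir
  have h : ∀ s, ∃ L, IsLine L ∧ (s ∈ lns D → s = pl D L) := by
    intro s
    by_cases hs : s ∈ lns D
    · obtain ⟨L, hL, e⟩ := lns_spec hs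
      exact ⟨L, hL, fun _ => e⟩
    · exact ⟨_, isLine_pair (hv 0), fun h => absurd h hs⟩
  choose Lf h1 using h
  exact ⟨Lf, fun s => (h1 s).1, fun s hs => (h1 s).2 hs⟩

theorem okT_sound {D : List (ℚ × ℚ)} (hD : D.Nodup) {t : ℕ} (h : okT D t = true) :
    ∃ C : Finset (AffineSubspace ℝ Pt), (∀ L ∈ C, IsLine L) ∧ (∀ x ∈ conf D, ∃ L ∈ C, x ∈ L) ∧
      C.card ≤ t + t * t ∧ thr t ≤ onlineNum (conf D) ∧ 2 ≤ onlineNum (conf D) := by
  unfold okT at h
  simp only [Bool.and_eq_true, List.any_eq_true, decide_eq_true_eq] at h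
  obtain ⟨⟨s0, hs0, h0⟩, h1, h2⟩ := h
  obtain ⟨v, hv⟩ := exists_dir
  obtain ⟨Lf, hLf, hLs⟩ := exists_lineOf D
  refine ⟨(heavy D t).toFinset.image Lf ∪ (rest D t).toFinset.image (fun p => line[ℝ, toPt p, toPt p + v]),
    ?_, ?_, ?_, h0.trans (lns_len hD hs0), two_le_online hs0⟩
  · intro L hL
    rcases mem_union.1 hL with hL | hL
    · obtain ⟨s, -, rfl⟩ := mem_image.1 hL
      exact hLf s
    · obtain ⟨p, -, rfl⟩ := mem_image.1 hL
      exact isLine_pair (hv _)
  · intro x hx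
    obtain ⟨p, hp, rfl⟩ := mem_conf.1 hx
    by_cases hr : p ∈ rest D t
    · exact ⟨_, mem_union_right _ (mem_image_of_mem _ (List.mem_toFinset.2 hr)), left_mem_affineSpan_pair ℝ _ _⟩
    · rw [mem_rest] at hr
      push Not at hr
      obtain ⟨s, hs, hps⟩ := hr hp
      refine ⟨Lf s, mem_union_left _ (mem_image_of_mem _ (List.mem_toFinset.2 hs)), ?_⟩
      have e := hLs s (mem_heavy.1 hs).1
      rw [e] at hps
      exact (mem_pl.1 hps).2
  · refine (card_union_le _ _).trans (Nat.add_le_add ?_ ?_)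
    · exact card_image_le.trans ((List.toFinset_card_le _).trans h1)
    · exact card_image_le.trans ((List.toFinset_card_le _).trans h2)

/-- a line with more points than there are lines in a cover belongs to the cover -/
theorem heavy_mem_cover {S : Finset Pt} {C : Finset (AffineSubspace ℝ Pt)} (h1 : ∀ L ∈ C, IsLine L)
    (h2 : ∀ p ∈ S, ∃ L ∈ C, p ∈ L) {L : AffineSubspace ℝ Pt} (hL : IsLine L)
    (h : C.card < (S.filter (fun x => x ∈ L)).card) : L ∈ C := by
  by_contra hn
  have hsub : S.filter (fun x => x ∈ L) ⊆ C.biUnion (fun M => (S.filter (fun x => x ∈ L)).filter (fun x => x ∈ M)) := by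
    intro x hx
    obtain ⟨M, hM, hxM⟩ := h2 x (mem_filter.1 hx).1
    exact mem_biUnion.2 ⟨M, hM, mem_filter.2 ⟨hx, hxM⟩⟩
  have h3 := (card_le_card hsub).trans (card_biUnion_le_card_mul _ _ 1 (by
    intro M hM
    by_contra hlt
    push Not at hlt
    obtain ⟨x, hx, y, hy, hxy⟩ := Finset.one_lt_card.1 hlt
    rw [mem_filter, mem_filter] at hx hy
    have : L = M := by
      ext z
      rw [← line_eq hL hx.1.2 hy.1.2 hxy z, ← line_eq (h1 M hM) hx.2 hy.2 hxy z]
    exact hn (this ▸ hM)))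
  omega

theorem okT_complete {D : List (ℚ × ℚ)} (hD : D.Nodup) {C : Finset (AffineSubspace ℝ Pt)}
    (h1 : ∀ L ∈ C, IsLine L) (h2 : ∀ p ∈ conf D, ∃ L ∈ C, p ∈ L) (hk : 1 ≤ C.card)
    {s : List (ℚ × ℚ)} (hs : s ∈ lns D) (h : thr C.card ≤ s.length) : okT D C.card = true := by
  unfold okT
  simp only [Bool.and_eq_true, List.any_eq_true, decide_eq_true_eq]
  obtain ⟨Lf, hLf, hLs⟩ := exists_lineOf D
  refine ⟨⟨s, hs, h⟩, ?_, ?_⟩
  · have hnd : (heavy D C.card).Nodup := List.nodup_dedup _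
    rw [← List.toFinset_card_of_nodup hnd]
    refine Finset.card_le_card_of_injOn Lf ?_ ?_
    · intro s hs
      have hs' : s ∈ heavy D C.card := by simpa using hs
      obtain ⟨a1, a2⟩ := mem_heavy.1 hs'
      have a3 := hLs s a1
      rw [a3, length_pl hD] at a2
      exact heavy_mem_cover h1 h2 (hLf s) a2
    · intro s hs s' hs' e
      have b1 : s ∈ heavy D C.card := by simpa using hs
      have b2 : s' ∈ heavy D C.card := by simpa using hs'
      rw [hLs s (mem_heavy.1 b1).1, hLs s' (mem_heavy.1 b2).1, e]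
  · have hnd : (rest D C.card).Nodup := hD.filter _
    rw [← conf_card hnd]
    have hsub : conf (rest D C.card) ⊆ (C.filter (fun L => ((conf D).filter (fun x => x ∈ L)).card ≤ C.card)).biUnion
        (fun L => (conf D).filter (fun x => x ∈ L)) := by
      intro x hx
      obtain ⟨p, hp, rfl⟩ := mem_conf.1 hx
      obtain ⟨hpD, hp2⟩ := mem_rest.1 hp
      have hpc := toPt_mem_conf.2 hpD
      obtain ⟨L, hL, hpL⟩ := h2 _ hpc
      refine mem_biUnion.2 ⟨L, mem_filter.2 ⟨hL, ?_⟩, mem_filter.2 ⟨hpc, hpL⟩⟩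
      by_contra hlt
      push Not at hlt
      have hmem : pl D L ∈ lns D := pl_mem_lns' (h1 L hL) (by omega)
      have hh : pl D L ∈ heavy D C.card := mem_heavy.2 ⟨hmem, by rw [length_pl hD]; exact hlt⟩
      exact hp2 _ hh (mem_pl.2 ⟨hpD, hpL⟩)
    refine (card_le_card hsub).trans ((card_biUnion_le_card_mul _ _ C.card ?_).trans ?_)
    · intro L hL
      exact (mem_filter.1 hL).2
    · exact Nat.mul_le_mul_right _ (card_le_card (filter_subset _ _))

theorem gp_spec (S : Finset Pt) : ∃ P : Finpartition S, P.parts.card = gpNum S ∧ ∀ A ∈ P.parts, GenPos A := by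
  have hne : {n | ∃ P : Finpartition S, P.parts.card = n ∧ ∀ A ∈ P.parts, GenPos A}.Nonempty := by
    refine ⟨_, ⊥, rfl, ?_⟩
    intro A hA
    obtain ⟨a, -, rfl⟩ := Finpartition.mem_bot_iff.1 hA
    intro p hp q hq r hr hpq
    exact absurd ((mem_singleton.1 hp).trans (mem_singleton.1 hq).symm) hpq
  exact Nat.sInf_mem hne

theorem gp_le_card (S : Finset Pt) : gpNum S ≤ S.card := by
  obtain ⟨P, h1, -⟩ := gp_spec S
  rw [← h1]
  exact P.card_parts_le_card

theorem gp_pos {S : Finset Pt} (h : S.Nonempty) : 0 < gpNum S := by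
  obtain ⟨P, h1, -⟩ := gp_spec S
  rw [← h1]
  exact card_pos.2 (P.parts_nonempty (by simpa using h.ne_empty))

/-- the polynomial of the kernel -/
noncomputable def pol : Polynomial ℕ := 1 + 3200 * Polynomial.X * (Polynomial.X + Polynomial.X ^ 2) ^ 4

theorem pol_eval (k : ℕ) : pol.eval k = 1 + 3200 * k * (k + k ^ 2) ^ 4 := by
  simp [pol]

theorem ker_spec (I : List (ℚ × ℚ) × ℕ) :
    (gpNum (conf I.1) ≤ I.2 ↔ gpNum (conf (ker I).1) ≤ (ker I).2) ∧ (ker I).1.Nodup ∧
      (ker I).1.length ≤ pol.eval (lineCover (conf I.1)) ∧ (ker I).2 ≤ pol.eval (lineCover (conf I.1)) := by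
  obtain ⟨l, g⟩ := I
  have hD : l.dedup.Nodup := List.nodup_dedup _
  simp only [ker]
  rw [← conf_dedup l]
  generalize l.dedup = D at *
  rw [pol_eval]
  by_cases h : okD D = true
  · rw [if_pos h]
    have h' := h
    unfold okD at h'
    rw [List.any_eq_true] at h'
    obtain ⟨t, -, ht⟩ := h'
    obtain ⟨C, h1, h2, h3, h4, h5⟩ := okT_sound hD ht
    have hgp : gpNum (conf D) = (onlineNum (conf D) + 1) / 2 := by
      refine gp_eq _ C h1 h2 ?_
      have h6 : C.card ^ 4 ≤ (t + t * t) ^ 4 := Nat.pow_le_pow_left h3 4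
      rw [thr_eq] at h4
      omega
    rw [hgp]
    by_cases hg : (lns D).any (fun s => decide (2 * g < s.length)) = true
    · rw [if_pos hg]
      rw [List.any_eq_true] at hg
      obtain ⟨s, hs, hlt⟩ := hg
      have hlt' : 2 * g < s.length := by simpa using hlt
      have := lns_len hD hs
      have hpos : 0 < gpNum (conf [((0 : ℚ), (0 : ℚ))]) := gp_pos ⟨toPt (0, 0), toPt_mem_conf.2 (by simp)⟩
      refine ⟨?_, by simp, by simp, by simp⟩
      constructor
      · intro hle; exfalso; omega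
      · intro hle
        simp only at hle
        omega
    · rw [if_neg hg]
      refine ⟨?_, by simp, by simp, by simp⟩
      have h7 : onlineNum (conf D) ≤ 2 * g := by
        obtain ⟨s, hs, e⟩ := exists_max_line hD h5
        by_contra hlt
        push Not at hlt
        exact hg (List.any_eq_true.2 ⟨s, hs, by simpa [e] using hlt⟩)
      have h8 : gpNum (conf []) = 0 := by
        have := gp_le_card (conf [])
        simpa [conf] using this
      constructor
      · intro _; simp only; omega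
      · intro _; omega
  · rw [if_neg h]
    have hcard := conf_card hD
    have hle := gp_le_card (conf D)
    have hlen : D.length ≤ 1 + 3200 * lineCover (conf D) * (lineCover (conf D) + lineCover (conf D) ^ 2) ^ 4 := by
      by_contra hlt
      push Not at hlt
      obtain ⟨C, hC, h1, h2⟩ := lineCover_spec (conf D)
      have h3 := card_le_mul (conf D) C h1 h2
      rw [hcard] at h3
      rw [← hC] at hlt
      have hk : 1 ≤ C.card := by
        rcases Nat.eq_zero_or_pos C.card with h0 | h0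
        · rw [h0, zero_mul] at h3
          omega
        · exact h0
      have h4 : C.card * (3200 * (C.card + C.card ^ 2) ^ 4) < C.card * onlineNum (conf D) := by
        calc C.card * (3200 * (C.card + C.card ^ 2) ^ 4) = 3200 * C.card * (C.card + C.card ^ 2) ^ 4 := by ring
          _ < D.length := by omega
          _ ≤ _ := h3
      have h5 : 3200 * (C.card + C.card ^ 2) ^ 4 < onlineNum (conf D) := lt_of_mul_lt_mul_left h4 (Nat.zero_le _)
      have h6 : thr C.card < onlineNum (conf D) := by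
        rw [thr_eq, ← pow_two]; exact h5
      have h7 : C.card ≤ (C.card + C.card * C.card) ^ 4 := by
        calc C.card ≤ C.card + C.card * C.card := Nat.le_add_right _ _
          _ ≤ _ := Nat.le_self_pow (by norm_num) _
      have h7' : C.card < onlineNum (conf D) := by
        rw [thr_eq] at h6; omega
      have h8 : 2 ≤ onlineNum (conf D) := by omega
      obtain ⟨s, hs, e⟩ := exists_max_line hD h8
      have hok := okT_complete hD h1 h2 hk hs (by omega)
      apply h
      unfold okD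
      rw [List.any_eq_true]
      refine ⟨C.card, ?_, hok⟩
      rw [List.mem_range]
      obtain ⟨L, -, hLc⟩ := online_spec (conf D)
      have : onlineNum (conf D) ≤ (conf D).card := by
        rw [← hLc]; exact card_le_card (filter_subset _ _)
      omega
    refine ⟨?_, hD, hlen, ?_⟩
    · simp only
      omega
    · exact (min_le_right _ _).trans hlen

end Pool.X247.GPP
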